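import Pool.Agent.MEG.Survive
import Pool.Agent.MEC.Compare

open MeasureTheory Set Filter
open scoped ENNReal

set_option linter.unusedSectionVars false

namespace Pool.Agent.MEG

open Pool.Agent.MEC

variable {V : Type*} [MeasurableSpace V] [StandardBorelSpace V]
variable {G : SimpleGraph V} {Δ : ℕ}

/-- the first two colours -/
def K2 (a b : Fin Δ) (n : ℕ) : Fin Δ := if n = 1 then a else b

section

variable {g : Gen G Δ} {c : PCol G Δ} {m : V → Fin Δ} {ν : Measure V} {i : ℕ} {x : V}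
variable {R r N0 : ℕ} {z t B Lam RP H C : ℝ≥0∞}

/-- The lower bound at an uncoloured edge. -/
theorem start_bound (hP : Par Δ R r N0 z t B Lam RP H C) (hG : NBg G r) (hr : 3 ≤ r)
    (hR : Sparse G Δ R) (hRP3 : B * (3 * RP) ≤ 2⁻¹) (hgood : Good g c ν C H x)
    (hm : ∀ x, (∃ k, c.S k x = x) → c.S (m x) x = x) (hx : x ∈ Unc g c i) :
    2⁻¹ * (Lam * z ^ 2) ≤ dens ν (word g c i (K2 (m x) (m (g.T i x))) 3) x *
      Uw ν c m N0 (word g c i (K2 (m x) (m (g.T i x))) 3 x, m x, m (g.T i x)) := by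
  set K := K2 (m x) (m (g.T i x)) with hK
  have hK1 : K 1 = m x := by simp [hK, K2]
  have hKs : K 2 = m (g.T i x) := by simp [hK, K2]
  have hv0 : Valid g c i K 0 x := hx
  have hdist : ∀ n, n + 1 ≤ r → Valid g c i K n x → Dst g c i K n x := by
    intro n hn hv l l' hl hl' hne
    exact hG (fun l => word g c i K l x) (n+1) hn (fun l hl => hv.adj (by omega))
      (fun l hl => hv.nb l hl) l l' hl hl' hne
  have hlight : ∀ n, n ≤ 1 → sumD g c i K ν (n+2) x ≤ H := by
    intro n hn
    unfold sumD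
    exact hP.light (fun l => dens ν (word g c i K l) x) (n+2) (fun l => hgood.le i l K)
      (fun l h1 h2 => by omega)
  have hf0 : Free g c i K 0 (K 1) x := by
    left
    rw [hK1]
    exact unc_missing_zero hm hx
  have hn0 := (hgood.ni i 0 K hv0 (hdist 0 (by omega) hv0) (hlight 0 (by omega))).1
  have hv1 : Valid g c i K 1 x := ⟨hv0, hf0, hn0 _ hf0⟩
  have hf1 : Free g c i K 1 (K 2) x := by
    left
    rw [hKs]
    exact unc_missing_one hm hx
  have hn1 := (hgood.ni i 1 K hv1 (hdist 1 (by omega) hv1) (hlight 1 (by omega))).1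
  have hv2 : Valid g c i K 2 x := ⟨hv1, hf1, hn1 _ hf1⟩
  have hs := survive hP hG hR hgood hm N0 2 K 0 le_rfl hv2 (hdist 2 (by omega) hv2)
    (fun n' h1 h2 => by omega) (Nat.zero_le _) (Nat.zero_le _)
    (fun l hl => absurd hl (Nat.not_lt_zero l)) (by omega)
  have hstt : stt g c i K x 2 = (word g c i K 3 x, m x, m (g.T i x)) := by
    unfold stt
    rw [hKs, ← hK1]
  rw [hstt] at hs
  set σ : State V Δ := (word g c i K 3 x, m x, m (g.T i x)) with hσ
  have hpot : ∀ l ∈ Finset.range 3, pot c m z N0 σ (word g c i K l x) ≤ RP := by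
    intro l hl
    rw [Finset.mem_range] at hl
    refine le_trans ?_ hP.rp'
    unfold pot
    refine tail_le z (r-2) (fun k hk => ?_) (fun k => iter_dv_le c m k _ σ) _
    refine iter_eq_zero c m hG (n := k) (N := 3) (fun l => word g c i K l x) σ
      (fun l hl => hv2.adj (by omega)) (fun l hl => hv2.nb l hl) rfl (fun l hl => ?_)
      (j := l) (by omega) (by omega) (by omega)
    have : l = 2 := by omega
    subst this
    have := back_eq (g := g) (c := c) (i := i) (x := x) (K := K) (n := 2) (by omega)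
    rw [hKs] at this
    exact this
  have h3 : ∑ l ∈ Finset.range 3, pot c m z N0 σ (word g c i K l x) ≤ 3 * RP := by
    refine (Finset.sum_le_sum hpot).trans (le_of_eq ?_)
    simp
  have h4 : B * (Lam * z ^ 2) * ∑ l ∈ Finset.range (2+1), pot c m z N0 σ (word g c i K l x) ≤
      2⁻¹ * (Lam * z ^ 2) := by
    calc B * (Lam * z ^ 2) * ∑ l ∈ Finset.range (2+1), pot c m z N0 σ (word g c i K l x)
        ≤ B * (Lam * z ^ 2) * (3 * RP) := mul_le_mul' le_rfl h3
      _ = (B * (3 * RP)) * (Lam * z ^ 2) := by ring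
      _ ≤ _ := mul_le_mul' hRP3 le_rfl
  have h5 : 2⁻¹ * (Lam * z ^ 2) + 2⁻¹ * (Lam * z ^ 2) ≤
      dens ν (word g c i K 3) x * Uw ν c m N0 σ + 2⁻¹ * (Lam * z ^ 2) := by
    calc 2⁻¹ * (Lam * z ^ 2) + 2⁻¹ * (Lam * z ^ 2) = t ^ 0 * (Lam * z ^ 2) := by
          rw [← add_mul, ENNReal.inv_two_add_inv_two, pow_zero]
      _ ≤ _ := hs.trans (add_le_add le_rfl h4)
  have hfin : 2⁻¹ * (Lam * z ^ 2) ≠ ⊤ := by
    refine ENNReal.mul_ne_top (by simp) (ENNReal.mul_ne_top hP.Lt (ENNReal.pow_ne_top ?_))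
    exact ne_top_of_le_ne_top ENNReal.one_ne_top hP.z1
  exact (ENNReal.add_le_add_iff_right hfin).1 h5

end

section

variable {c : PCol G Δ} {m : V → Fin Δ} {ν : Measure V} [IsFiniteMeasure ν] {C : ℝ≥0∞}

lemma measurable_Uw (hmm : Measurable m) (N : ℕ) : Measurable (Uw ν c m N) := by
  unfold Uw
  exact Finset.measurable_sum _ fun k _ => measurable_iter c hmm k

lemma mass_Uw_le (hq : QInv G ν C) (hmm : Measurable m) (N : ℕ) :
    mass ν (Uw ν c m N) ≤ (N + 1 : ℕ) * ((Δ : ℝ≥0∞) ^ 2 * ν univ) := by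
  have hF : ∀ k (a b : Fin Δ), Measurable fun y => (TD ν c m)^[k] 1 (y, a, b) := fun k a b =>
    (measurable_iter c hmm k).comp (measurable_id.prodMk measurable_const)
  have h1 : mass ν (Uw ν c m N) = ∑ k ∈ Finset.range (N+1), mass ν ((TD ν c m)^[k] 1) := by
    unfold mass Uw
    rw [Finset.sum_comm]
    rw [Finset.sum_comm]
    calc ∑ a : Fin Δ, ∑ b : Fin Δ, ∫⁻ y, ∑ k ∈ Finset.range (N+1), (TD ν c m)^[k] 1 (y, a, b) ∂ν
        = ∑ a : Fin Δ, ∑ b : Fin Δ, ∑ k ∈ Finset.range (N+1),
            ∫⁻ y, (TD ν c m)^[k] 1 (y, a, b) ∂ν := by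
          refine Finset.sum_congr rfl fun a _ => Finset.sum_congr rfl fun b _ => ?_
          rw [lintegral_finsetSum _ fun k _ => hF k a b]
      _ = ∑ a : Fin Δ, ∑ k ∈ Finset.range (N+1), ∑ b : Fin Δ,
            ∫⁻ y, (TD ν c m)^[k] 1 (y, a, b) ∂ν := by
          refine Finset.sum_congr rfl fun a _ => ?_
          rw [Finset.sum_comm]
      _ = _ := by rw [Finset.sum_comm]
  rw [h1]
  refine (Finset.sum_le_sum fun k _ => mass_iter_le hq c hmm k).trans (le_of_eq ?_)
  simp

/-- The walks starting at the edges number `i`, over all `i`. -/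
lemma transport_le (hq : QInv G ν C) (g : Gen G Δ) (hmm : Measurable m)
    {U : State V Δ → ℝ≥0∞} (hU : Measurable U) :
    ∑' i, ∫⁻ x in Unc g c i, dens ν (word g c i (K2 (m x) (m (g.T i x))) 3) x *
      U (word g c i (K2 (m x) (m (g.T i x))) 3 x, m x, m (g.T i x)) ∂ν ≤
    Δ * mass ν U := by
  classical
  set E : ℕ → Fin Δ → Fin Δ → Set V := fun i a b =>
    Unc g c i ∩ ({x | m x = a} ∩ {x | m (g.T i x) = b}) with hE
  have hEm : ∀ i a b, MeasurableSet (E i a b) := fun i a b =>
    (measurableSet_Unc i).inter ((measurableSet_eq_fun hmm measurable_const).inter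
      (measurableSet_eq_fun (hmm.comp (g.meas i)) measurable_const))
  have hUz : ∀ a b, Measurable fun y => U (y, a, b) := fun a b =>
    hU.comp (measurable_id.prodMk measurable_const)
  set φ : ℕ → Fin Δ → Fin Δ → (V ≃ᵐ V) := fun i a b => word g c i (K2 a b) 3 with hφ
  -- one edge number
  have hone : ∀ i, ∫⁻ x in Unc g c i, dens ν (word g c i (K2 (m x) (m (g.T i x))) 3) x *
      U (word g c i (K2 (m x) (m (g.T i x))) 3 x, m x, m (g.T i x)) ∂ν =
      ∑ a : Fin Δ, ∑ b : Fin Δ,
        ∫⁻ y, (φ i a b '' E i a b).indicator (fun y => U (y, a, b)) y ∂ν := by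
    intro i
    have h1 : ∀ a b, ∫⁻ y, (φ i a b '' E i a b).indicator (fun y => U (y, a, b)) y ∂ν =
        ∫⁻ x, (E i a b).indicator (fun x => dens ν (φ i a b) x * U (φ i a b x, a, b)) x ∂ν := by
      intro a b
      have hφE : MeasurableSet (φ i a b '' E i a b) :=
        (φ i a b).measurableSet_image.2 (hEm i a b)
      rw [← lintegral_dens (word_bdd g c i (K2 a b) hq 3) ((hUz a b).indicator hφE)]
      refine lintegral_congr fun x => ?_
      by_cases hx : x ∈ E i a b
      · rw [indicator_of_mem hx]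
        have hmem : word g c i (K2 a b) 3 x ∈ φ i a b '' E i a b := mem_image_of_mem _ hx
        rw [indicator_of_mem hmem, mul_comm]
      · rw [indicator_of_notMem hx, indicator_of_notMem, zero_mul]
        rintro ⟨y, hy, hxy⟩
        exact hx ((φ i a b).injective hxy ▸ hy)
    have hmeas : ∀ a b, Measurable
        ((E i a b).indicator (fun x => dens ν (φ i a b) x * U (φ i a b x, a, b))) := fun a b =>
      ((measurable_dens ν _).mul ((hUz a b).comp (φ i a b).measurable)).indicator (hEm i a b)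
    simp only [h1]
    have h2 : ∀ a, ∑ b : Fin Δ, ∫⁻ x, (E i a b).indicator
        (fun x => dens ν (φ i a b) x * U (φ i a b x, a, b)) x ∂ν =
        ∫⁻ x, ∑ b : Fin Δ, (E i a b).indicator
          (fun x => dens ν (φ i a b) x * U (φ i a b x, a, b)) x ∂ν := fun a => by
      rw [lintegral_finsetSum _ fun b _ => hmeas a b]
    simp only [h2]
    rw [← lintegral_finsetSum _ fun a _ => Finset.measurable_sum _ fun b _ => hmeas a b,
      ← lintegral_indicator (measurableSet_Unc i)]
    refine lintegral_congr fun x => ?_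
    by_cases hx : x ∈ Unc g c i
    · rw [indicator_of_mem hx, Finset.sum_eq_single (m x), Finset.sum_eq_single (m (g.T i x)),
        indicator_of_mem]
      · exact ⟨hx, rfl, rfl⟩
      · intro b _ hb
        exact indicator_of_notMem (fun h => hb h.2.2.symm) _
      · simp
      · intro a _ ha
        exact Finset.sum_eq_zero fun b _ => indicator_of_notMem (fun h => ha h.2.1.symm) _
      · simp
    · rw [indicator_of_notMem hx]
      symm
      exact Finset.sum_eq_zero fun a _ => Finset.sum_eq_zero fun b _ =>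
        indicator_of_notMem (fun h => hx h.1) _
  simp only [hone]
  have hind : ∀ i a b, Measurable
      ((φ i a b '' E i a b).indicator (fun y => U (y, a, b))) := fun i a b =>
    (hUz a b).indicator ((φ i a b).measurableSet_image.2 (hEm i a b))
  have hpt : ∀ a b (y : V), ∑' i, (φ i a b '' E i a b).indicator (fun y => U (y, a, b)) y ≤
      Δ * U (y, a, b) := by
    intro a b y
    rw [ENNReal.tsum_eq_iSup_sum]
    refine iSup_le fun s => ?_
    have h2 : ∑ i ∈ s, (φ i a b '' E i a b).indicator (fun y => U (y, a, b)) y =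
        ((s.filter fun i => y ∈ φ i a b '' E i a b).card : ℝ≥0∞) * U (y, a, b) := by
      rw [Finset.card_filter, Nat.cast_sum, Finset.sum_mul]
      refine Finset.sum_congr rfl fun i _ => ?_
      by_cases hy : y ∈ φ i a b '' E i a b
      · rw [indicator_of_mem hy]; simp [hy]
      · rw [indicator_of_notMem hy]; simp [hy]
    rw [h2]
    refine mul_le_mul' ?_ le_rfl
    have hc : (s.filter fun i => y ∈ φ i a b '' E i a b).card ≤ Δ := by
      refine g.card (c.S a (c.S b y)) _ fun i hi => ?_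
      obtain ⟨x, hx, hxy⟩ := (Finset.mem_filter.1 hi).2
      have h3 : c.S b (c.S a (g.T i x)) = y := by
        rw [← hxy]
        rfl
      have h4 : c.S a (c.S b y) = g.T i x := by rw [← h3, c.invol, c.invol]
      rw [h4, g.invol]
      exact (hx.1.1).symm
    exact_mod_cast hc
  calc ∑' i, ∑ a : Fin Δ, ∑ b : Fin Δ,
        ∫⁻ y, (φ i a b '' E i a b).indicator (fun y => U (y, a, b)) y ∂ν
      = ∑ a : Fin Δ, ∑ b : Fin Δ, ∑' i,
        ∫⁻ y, (φ i a b '' E i a b).indicator (fun y => U (y, a, b)) y ∂ν := by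
        rw [Summable.tsum_finsetSum fun a _ => ENNReal.summable]
        refine Finset.sum_congr rfl fun a _ => ?_
        rw [Summable.tsum_finsetSum fun b _ => ENNReal.summable]
    _ ≤ ∑ a : Fin Δ, ∑ b : Fin Δ, (Δ : ℝ≥0∞) * ∫⁻ y, U (y, a, b) ∂ν := by
        refine Finset.sum_le_sum fun a _ => Finset.sum_le_sum fun b _ => ?_
        rw [← lintegral_tsum fun i => (hind i a b).aemeasurable,
          ← lintegral_const_mul _ (hUz a b)]
        exact lintegral_mono fun y => hpt a b y
    _ = Δ * mass ν U := by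
        unfold mass
        simp only [Finset.mul_sum]

/-- The bound for the uncoloured edges. -/
theorem FE_le_of_par {R r N0 : ℕ} {z t B Lam RP : ℝ≥0∞} {H : ℝ} (g : Gen G Δ) (k0 : Fin Δ)
    (hq : QInv G ν C)
    (hP : Par Δ R r N0 z t B Lam RP (ENNReal.ofReal H) C) (hG : NBg G r) (hr : 3 ≤ r)
    (hR : Sparse G Δ R) (hRP3 : B * (3 * RP) ≤ 2⁻¹) (hH : 0 < H)
    (hopt : PCol.Opt ν (1 / (12 * H)) c) :
    2⁻¹ * (Lam * z ^ 2) * FE ν g c ≤ (Δ : ℝ≥0∞) ^ 3 * ((N0 + 1 : ℕ) * ν univ) := by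
  obtain ⟨m, hmm, hm⟩ := exists_miss_fun c k0
  have hae := ae_good g hq hH hopt
  unfold FE
  rw [← ENNReal.tsum_mul_left]
  calc ∑' i, 2⁻¹ * (Lam * z ^ 2) * ν (Unc g c i)
      ≤ ∑' i, ∫⁻ x in Unc g c i, dens ν (word g c i (K2 (m x) (m (g.T i x))) 3) x *
        Uw ν c m N0 (word g c i (K2 (m x) (m (g.T i x))) 3 x, m x, m (g.T i x)) ∂ν := by
        refine ENNReal.tsum_le_tsum fun i => ?_
        rw [← setLIntegral_const]
        refine setLIntegral_mono_ae' (measurableSet_Unc i) ?_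
        filter_upwards [hae] with x hx hun
        exact start_bound hP hG hr hR hRP3 hx hm hun
    _ ≤ Δ * mass ν (Uw ν c m N0) := transport_le hq g hmm (measurable_Uw hmm N0)
    _ ≤ Δ * ((N0 + 1 : ℕ) * ((Δ : ℝ≥0∞) ^ 2 * ν univ)) :=
        mul_le_mul' le_rfl (mass_Uw_le hq hmm N0)
    _ = (Δ : ℝ≥0∞) ^ 3 * ((N0 + 1 : ℕ) * ν univ) := by ring

end

end Pool.Agent.MEG
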