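import Pool.Agent.MEG.Kernel

open MeasureTheory Set Filter
open scoped ENNReal

set_option linter.unusedSectionVars false

namespace Pool.Agent.MEG

open Pool.Agent.MEC

variable {V : Type*} [MeasurableSpace V]
variable {G : SimpleGraph V} {Δ : ℕ}

section

variable {ν : Measure V} [IsFiniteMeasure ν]

/-- Change of variables for the densities. -/
lemma lintegral_dens {φ : V ≃ᵐ V} {C : ℝ≥0∞} (h : BddBy ν φ C) {f : V → ℝ≥0∞}
    (hf : Measurable f) : ∫⁻ x, f (φ x) * dens ν φ x ∂ν = ∫⁻ x, f x ∂ν := by
  have h1 : (ν.map φ.symm) = ν.withDensity (dens ν φ) :=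
    (Measure.withDensity_rnDeriv_eq _ _ h.ac).symm
  calc ∫⁻ x, f (φ x) * dens ν φ x ∂ν = ∫⁻ x, f (φ x) ∂(ν.withDensity (dens ν φ)) := by
        have h2 : Measurable fun x => f (φ x) := hf.comp φ.measurable
        rw [lintegral_withDensity_eq_lintegral_mul _ (measurable_dens ν φ) h2]
        refine lintegral_congr fun x => ?_
        simp only [Pi.mul_apply]
        rw [mul_comm]
    _ = ∫⁻ x, f (φ x) ∂(ν.map φ.symm) := by rw [h1]
    _ = ∫⁻ x, f (φ (φ.symm x)) ∂ν := lintegral_map (hf.comp φ.measurable) φ.symm.measurable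
    _ = ∫⁻ x, f x ∂ν := by simp

/-- The cocycle identity. -/
lemma dens_trans {φ ψ : V ≃ᵐ V} {C D : ℝ≥0∞} (h : BddBy ν φ C) (h' : BddBy ν ψ D) :
    ∀ᵐ x ∂ν, dens ν (φ.trans ψ) x = dens ν φ x * dens ν ψ (φ x) := by
  have hm : Measurable fun x => dens ν φ x * dens ν ψ (φ x) :=
    (measurable_dens ν φ).mul ((measurable_dens ν ψ).comp φ.measurable)
  refine ae_eq_of_forall_setLIntegral_eq_of_sigmaFinite (measurable_dens ν _) hm
    fun B hB _ => ?_
  rw [(h.trans h').setLIntegral_dens]
  have e1 : (φ.trans ψ) '' B = ψ '' (φ '' B) := by rw [← image_comp]; rfl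
  rw [e1, ← h'.setLIntegral_dens]
  have hφB : MeasurableSet (φ '' B) := φ.measurableSet_image.2 hB
  rw [← lintegral_indicator hφB, ← lintegral_indicator hB,
    ← lintegral_dens h ((measurable_dens ν ψ).indicator hφB)]
  refine lintegral_congr fun x => ?_
  by_cases hx : x ∈ B
  · rw [indicator_of_mem hx, indicator_of_mem (mem_image_of_mem φ hx), mul_comm]
  · rw [indicator_of_notMem hx, indicator_of_notMem, zero_mul]
    rintro ⟨y, hy, hxy⟩
    exact hx (φ.injective hxy ▸ hy)

end

/-- the density of the move along colour `k` -/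
noncomputable def dS (ν : Measure V) (c : PCol G Δ) (k : Fin Δ) : V → ℝ≥0∞ :=
  dens ν (ofInvol (c.S k) (c.meas k) (c.invol k))

lemma measurable_dS (ν : Measure V) (c : PCol G Δ) (k : Fin Δ) : Measurable (dS ν c k) :=
  measurable_dens ν _

variable {ν : Measure V} [IsFiniteMeasure ν] {C : ℝ≥0∞}

lemma word_dens (hq : QInv G ν C) (g : Gen G Δ) (c : PCol G Δ) (i : ℕ) (K : ℕ → Fin Δ) (l : ℕ) :
    ∀ᵐ x ∂ν, dens ν (word g c i K (l+2)) x =
      dens ν (word g c i K (l+1)) x * dS ν c (K (l+1)) (word g c i K (l+1) x) :=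
  dens_trans (word_bdd g c i K hq (l+1))
    (hq.bddBy (c.S (K (l+1))) (c.meas _) (c.invol _) (c.adj _))

/-- the weighted transfer operator -/
noncomputable def TD (ν : Measure V) (c : PCol G Δ) (m : V → Fin Δ)
    (F : State V Δ → ℝ≥0∞) (σ : State V Δ) : ℝ≥0∞ :=
  ∑ k, qq c m σ k * (dS ν c k σ.1 * F (nxt c σ k))

section

variable [MeasurableEq V]

lemma measurable_S2 (c : PCol G Δ) : Measurable (fun p : Fin Δ × V => c.S p.1 p.2) :=
  measurable_from_prod_countable_right fun k => c.meas k

lemma measurable_nxt (c : PCol G Δ) (k : Fin Δ) : Measurable (fun σ => nxt c σ k) :=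
  ((c.meas k).comp measurable_fst).prodMk (measurable_snd.snd.prodMk measurable_const)

lemma measurable_qq (c : PCol G Δ) {m : V → Fin Δ} (hm : Measurable m) (k : Fin Δ) :
    Measurable (fun σ => qq c m σ k) := by
  classical
  have h1 : Measurable (fun σ : State V Δ => σ.1) := measurable_fst
  have hb : Measurable (fun σ : State V Δ => σ.2.2) := measurable_snd.snd
  have ha : Measurable (fun σ : State V Δ => σ.2.1) := measurable_snd.fst
  have hy : Measurable (fun σ : State V Δ => c.S σ.2.2 σ.1) :=
    (measurable_S2 c).comp (hb.prodMk h1)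
  have hk : ∀ f : State V Δ → V, Measurable f → Measurable (fun σ => c.S k (f σ)) :=
    fun f hf => (c.meas k).comp hf
  unfold qq
  refine Measurable.ite ?_ (Measurable.ite ?_ measurable_const
    (Measurable.ite ?_ measurable_const measurable_const)) measurable_const
  · exact (measurableSet_eq_fun (hk _ h1) h1).compl.inter
      (measurableSet_eq_fun measurable_const hb).compl
  · exact (measurableSet_eq_fun measurable_const ha).inter
      (measurableSet_eq_fun (hk _ hy) hy).compl
  · exact (measurableSet_eq_fun measurable_const (hm.comp hy)).inter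
      (measurableSet_eq_fun (hk _ hy) hy)

lemma measurable_TD (c : PCol G Δ) {m : V → Fin Δ} (hm : Measurable m)
    {F : State V Δ → ℝ≥0∞} (hF : Measurable F) : Measurable (TD ν c m F) := by
  unfold TD
  exact Finset.measurable_sum _ fun k _ => (measurable_qq c hm k).mul
    (((measurable_dS ν c k).comp measurable_fst).mul (hF.comp (measurable_nxt c k)))

lemma measurable_iter (c : PCol G Δ) {m : V → Fin Δ} (hm : Measurable m) (n : ℕ) :
    Measurable ((TD ν c m)^[n] 1) := by
  induction n with
  | zero => exact measurable_one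
  | succ n ih =>
    rw [Function.iterate_succ_apply']
    exact measurable_TD c hm ih

/-- total mass of a function on the states -/
noncomputable def mass (ν : Measure V) (F : State V Δ → ℝ≥0∞) : ℝ≥0∞ :=
  ∑ a : Fin Δ, ∑ b : Fin Δ, ∫⁻ z, F (z, a, b) ∂ν

lemma mass_TD_le (hq : QInv G ν C) (c : PCol G Δ) {m : V → Fin Δ} (hm : Measurable m)
    {F : State V Δ → ℝ≥0∞} (hF : Measurable F) : mass ν (TD ν c m F) ≤ mass ν F := by
  classical
  have hFz : ∀ a b, Measurable fun z => F (z, a, b) := fun a b =>
    hF.comp (measurable_id.prodMk measurable_const)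
  have hqz : ∀ a b k, Measurable fun z => qq c m (z, a, b) k := fun a b k =>
    (measurable_qq c hm k).comp (measurable_id.prodMk measurable_const)
  have hdual : ∀ a b k, ∫⁻ z, qq c m (z, a, b) k * (dS ν c k z * F (c.S k z, b, k)) ∂ν =
      ∫⁻ z, qq c m (c.S k z, a, b) k * F (z, b, k) ∂ν := by
    intro a b k
    have h1 := lintegral_dens (hq.bddBy (c.S k) (c.meas _) (c.invol _) (c.adj _))
      (f := fun z => qq c m (c.S k z, a, b) k * F (z, b, k))
      (((hqz a b k).comp (c.meas k)).mul (hFz b k))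
    rw [← h1]
    refine lintegral_congr fun z => ?_
    simp only [ofInvol_apply, c.invol]
    unfold dS
    ring
  calc mass ν (TD ν c m F)
      = ∑ a : Fin Δ, ∑ b : Fin Δ, ∑ k : Fin Δ,
          ∫⁻ z, qq c m (c.S k z, a, b) k * F (z, b, k) ∂ν := by
        unfold mass
        refine Finset.sum_congr rfl fun a _ => Finset.sum_congr rfl fun b _ => ?_
        have hmk : ∀ k : Fin Δ, Measurable fun z =>
            qq c m (z, a, b) k * (dS ν c k z * F (c.S k z, b, k)) := fun k =>
          (hqz a b k).mul ((measurable_dS ν c k).mul ((hFz b k).comp (c.meas k)))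
        change ∫⁻ z, ∑ k, qq c m (z, a, b) k * (dS ν c k z * F (c.S k z, b, k)) ∂ν = _
        rw [lintegral_finsetSum _ fun k _ => hmk k]
        exact Finset.sum_congr rfl fun k _ => hdual a b k
    _ = ∑ b : Fin Δ, ∑ k : Fin Δ, ∑ a : Fin Δ,
          ∫⁻ z, qq c m (c.S k z, a, b) k * F (z, b, k) ∂ν := by
        rw [Finset.sum_comm]
        refine Finset.sum_congr rfl fun b _ => ?_
        rw [Finset.sum_comm]
    _ ≤ ∑ b : Fin Δ, ∑ k : Fin Δ, ∫⁻ z, F (z, b, k) ∂ν := by
        refine Finset.sum_le_sum fun b _ => Finset.sum_le_sum fun k _ => ?_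
        have hmk : ∀ a : Fin Δ, Measurable fun z =>
            qq c m (c.S k z, a, b) k * F (z, b, k) := fun a =>
          ((hqz a b k).comp (c.meas k)).mul (hFz b k)
        rw [← lintegral_finsetSum _ fun a _ => hmk a]
        refine lintegral_mono fun z => ?_
        rw [← Finset.sum_mul]
        calc (∑ a, qq c m (c.S k z, a, b) k) * F (z, b, k) ≤ 1 * F (z, b, k) := by
              gcongr
              exact inflow_le c m (z, b, k)
          _ = F (z, b, k) := one_mul _
    _ = mass ν F := rfl

lemma mass_iter_le (hq : QInv G ν C) (c : PCol G Δ) {m : V → Fin Δ} (hm : Measurable m)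
    (n : ℕ) : mass ν ((TD ν c m)^[n] 1) ≤ (Δ : ℝ≥0∞) ^ 2 * ν univ := by
  induction n with
  | zero =>
    simp only [Function.iterate_zero, id_eq, mass, Pi.one_apply, lintegral_one]
    simp only [Finset.sum_const, Finset.card_univ, Fintype.card_fin, nsmul_eq_mul]
    rw [sq, mul_assoc]
  | succ n ih =>
    rw [Function.iterate_succ_apply']
    exact (mass_TD_le hq c hm (measurable_iter c hm n)).trans ih

end

end Pool.Agent.MEG
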