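import Pool.Agent.MEC.Acyclic

open Set

set_option linter.unusedSectionVars false

namespace Pool.Agent.MEG

open Pool.Agent.MEC

variable {V : Type*} {G : SimpleGraph V}

/-- Non-backtracking walks of `G` with at most `r` edges do not revisit vertices. -/
def NBg (G : SimpleGraph V) (r : ℕ) : Prop :=
  ∀ (y : ℕ → V) (N : ℕ), N ≤ r → (∀ l < N, G.Adj (y l) (y (l+1))) →
    (∀ l, l + 2 ≤ N → y (l+2) ≠ y l) → ∀ l l', l ≤ N → l' ≤ N → l ≠ l' → y l ≠ y l'

lemma NBg.mono {r s : ℕ} (h : r ≤ s) (hG : NBg G s) : NBg G r :=
  fun y N hN => hG y N (hN.trans h)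

/-- A closed non-backtracking walk whose inner vertices are different gives a short cycle. -/
lemma egirth_le_of_closed (y : ℕ → V) (d : ℕ) (hd : 1 ≤ d)
    (hadj : ∀ l < d, G.Adj (y l) (y (l+1))) (hnb : ∀ l, l + 2 ≤ d → y (l+2) ≠ y l)
    (hdis : ∀ l l', 1 ≤ l → l < l' → l' ≤ d → y l ≠ y l') (hcl : y d = y 0) :
    G.egirth ≤ d := by
  obtain ⟨e, rfl⟩ : ∃ e, d = e + 1 := ⟨d - 1, by omega⟩
  obtain ⟨p, h1, h2, h3⟩ := exists_walk_of_seq (G := G) (fun l => y (l+1)) e
    (fun l hl => hadj (l+1) (by omega))
  have h0 : G.Adj (y (e+1)) (y 1) := by rw [hcl]; exact hadj 0 (by omega)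
  have hcyc : (SimpleGraph.Walk.cons (p := p) (h0 : G.Adj (y (e+1)) (y (0+1)))).IsCycle := by
    rw [SimpleGraph.Walk.cons_isCycle_iff]
    constructor
    · rw [SimpleGraph.Walk.isPath_def, h1]
      refine List.Nodup.map_on ?_ List.nodup_range
      intro a ha b hb hab
      rw [List.mem_range] at ha hb
      by_contra hne
      rcases lt_or_gt_of_ne hne with h | h
      · exact hdis (a+1) (b+1) (by omega) (by omega) (by omega) hab
      · exact hdis (b+1) (a+1) (by omega) (by omega) (by omega) hab.symm
    · rw [h2, List.mem_map]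
      rintro ⟨r, hr, he⟩
      rw [List.mem_range] at hr
      rw [Sym2.eq_iff] at he
      rcases he with ⟨h4, h5⟩ | ⟨h4, h5⟩
      · exact hdis 1 (r+1+1) (by omega) (by omega) (by omega) h5.symm
      · have hr0 : r = 0 := by
          by_contra hne
          exact hdis 1 (r+1) (by omega) (by omega) (by omega) h4.symm
        subst hr0
        refine hnb 0 (by omega) ?_
        change y (0+1+1) = y 0
        rw [h5, hcl]
  have := SimpleGraph.egirth_le_length hcyc
  rw [SimpleGraph.Walk.length_cons, h3] at this
  exact_mod_cast this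

lemma nbg_of_egirth {r : ℕ} (h : (r : ℕ∞) < G.egirth) : NBg G r := by
  intro y N hN hadj hnb
  -- strong induction on the distance
  have key : ∀ d, 1 ≤ d → ∀ l, l + d ≤ N → y l ≠ y (l + d) := by
    intro d
    induction d using Nat.strong_induction_on with
    | _ d ih =>
      intro hd l hl he
      have := egirth_le_of_closed (G := G) (fun a => y (l + a)) d hd
        (fun a ha => hadj (l+a) (by omega)) (fun a ha => hnb (l+a) (by omega))
        (fun a b ha hab hb => by
          have := ih (b - a) (by omega) (by omega) (l + a) (by omega)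
          have e : l + a + (b - a) = l + b := by omega
          rw [e] at this
          exact this) (by simpa using he.symm)
      have h2 : (r : ℕ∞) < d := lt_of_lt_of_le h this
      have h3 : r < d := by exact_mod_cast h2
      omega
  intro l l' hl hl' hne
  rcases lt_or_gt_of_ne hne with h1 | h1
  · have := key (l' - l) (by omega) l (by omega)
    have e : l + (l' - l) = l' := by omega
    rw [e] at this
    exact this
  · have := key (l - l') (by omega) l' (by omega)
    have e : l' + (l - l') = l := by omega
    rw [e] at this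
    exact this.symm

/-- Paths with `R` edges contain a vertex of small degree: the same for non-backtracking walks. -/
lemma sparse_of_paths' {Δ R : ℕ} (hG : NBg G R)
    (h : ∀ (u v : V) (p : G.Walk u v), p.IsPath → p.length = R →
      ∃ w ∈ p.support, (G.neighborSet w).encard < Δ) : Sparse G Δ R := by
  intro y hadj hnb
  obtain ⟨p, h1, h2, h3⟩ := exists_walk_of_seq y R hadj
  have hp : p.IsPath := by
    rw [SimpleGraph.Walk.isPath_def, h1]
    refine List.Nodup.map_on ?_ List.nodup_range
    intro a ha b hb hab
    rw [List.mem_range] at ha hb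
    by_contra hne
    exact hG y R le_rfl hadj hnb a b (by omega) (by omega) hne hab
  obtain ⟨w, hw, hd⟩ := h _ _ p hp h3
  rw [h1, List.mem_map] at hw
  obtain ⟨l, hl, rfl⟩ := hw
  rw [List.mem_range] at hl
  exact ⟨l, by omega, hd⟩

end Pool.Agent.MEG
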