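import Pool.Agent.MEG.Cocycle

open MeasureTheory Set Filter
open scoped ENNReal

set_option linter.unusedSectionVars false

namespace Pool.Agent.MEG

open Pool.Agent.MEC

variable {V : Type*} [MeasurableSpace V] [StandardBorelSpace V]
variable {G : SimpleGraph V} {Δ : ℕ}

section

variable (g : Gen G Δ) (c : PCol G Δ) (i : ℕ) (K : ℕ → Fin Δ)

/-- the points `y_0, …, y_(n+1)` are different -/
def Dst (n : ℕ) (x : V) : Prop :=
  ∀ l l', l ≤ n + 1 → l' ≤ n + 1 → l ≠ l' → word g c i K l x ≠ word g c i K l' x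

variable {g c i K}

lemma measurableSet_Dst (n : ℕ) : MeasurableSet {x | Dst g c i K n x} := by
  have : {x | Dst g c i K n x} = ⋂ l, ⋂ l', ⋂ (_ : l ≤ n + 1), ⋂ (_ : l' ≤ n + 1),
      ⋂ (_ : l ≠ l'), {x | word g c i K l x = word g c i K l' x}ᶜ := by
    ext x
    simp only [mem_iInter]
    exact Iff.rfl
  rw [this]
  exact MeasurableSet.iInter fun l => MeasurableSet.iInter fun l' => MeasurableSet.iInter fun _ =>
    MeasurableSet.iInter fun _ => MeasurableSet.iInter fun _ =>
    (measurableSet_eq_fun (word g c i K l).measurable (word g c i K l').measurable).compl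

variable {ν : Measure V} [IsFiniteMeasure ν] {C : ℝ≥0∞}

lemma improve_aux' (hq : QInv G ν C) {H : ℝ} (hH : 0 < H) (n : ℕ)
    (I : Set V) (hI : MeasurableSet I) (hId : ∀ x ∈ I, Dst g c i K n x)
    (hIs : ∀ x ∈ I, sumD g c i K ν (n+2) x ≤ ENNReal.ofReal H) (hpos : ν I ≠ 0) :
    ∃ B ⊆ I, MeasurableSet B ∧ 0 < ν.real B ∧
      (∀ l l', l ≤ n + 1 → l' ≤ n + 1 → l ≠ l' →
        Disjoint (word g c i K l '' B) (word g c i K l' '' B)) ∧
      ∑ l ∈ Finset.range (n+2), ν.real (word g c i K l '' B) ≤ H * ν.real B := by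
  classical
  obtain ⟨B, hBI, hBm, hBpos, hBdis⟩ := exists_disjoint_piece ν (fun l => word g c i K l)
    ((Finset.range (n+2) ×ˢ Finset.range (n+2)).filter fun p => p.1 ≠ p.2) I hI hpos (by
      rintro x hx ⟨l, l'⟩ hp
      simp only [Finset.mem_filter, Finset.mem_product, Finset.mem_range] at hp
      exact hId x hx l l' (by omega) (by omega) hp.2)
  refine ⟨B, hBI, hBm, ?_, ?_, ?_⟩
  · rw [measureReal_def]
    exact ENNReal.toReal_pos hBpos (measure_ne_top _ _)
  · intro l l' h1 h2 h3
    refine hBdis (l, l') ?_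
    simp only [Finset.mem_filter, Finset.mem_product, Finset.mem_range]
    exact ⟨⟨by omega, by omega⟩, h3⟩
  · have h1 : ∑ l ∈ Finset.range (n+2), ν (word g c i K l '' B) ≤ ENNReal.ofReal H * ν B := by
      calc ∑ l ∈ Finset.range (n+2), ν (word g c i K l '' B)
          = ∑ l ∈ Finset.range (n+2), ∫⁻ x in B, dens ν (word g c i K l) x ∂ν := by
            refine Finset.sum_congr rfl fun l _ => ?_
            rw [(word_bdd g c i K hq l).setLIntegral_dens]
        _ = ∫⁻ x in B, sumD g c i K ν (n+2) x ∂ν := by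
            unfold sumD
            rw [lintegral_finsetSum _ fun l _ => measurable_dens ν _]
        _ ≤ ∫⁻ _ in B, ENNReal.ofReal H ∂ν := by
            refine setLIntegral_mono measurable_const fun x hx => hIs x (hBI hx)
        _ = ENNReal.ofReal H * ν B := by rw [setLIntegral_const]
    have h2 : ∑ l ∈ Finset.range (n+2), ν.real (word g c i K l '' B) =
        (∑ l ∈ Finset.range (n+2), ν (word g c i K l '' B)).toReal := by
      rw [ENNReal.toReal_sum fun l _ => measure_ne_top _ _]
      rfl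
    rw [h2]
    refine (ENNReal.toReal_mono (ENNReal.mul_ne_top ENNReal.ofReal_ne_top (measure_ne_top _ _))
      h1).trans ?_
    rw [ENNReal.toReal_mul, ENNReal.toReal_ofReal hH.le]
    rfl

lemma improve_move' (hq : QInv G ν C) {H : ℝ} (hH : 0 < H) (hopt : PCol.Opt ν (1 / (12 * H)) c)
    (n : ℕ) :
    ∀ᵐ x ∂ν, Valid g c i K n x → Dst g c i K n x → sumD g c i K ν (n+2) x ≤ ENNReal.ofReal H →
      2⁻¹ < dens ν (word g c i K n) x + dens ν (word g c i K (n+1)) x := by
  set I : Set V := {x | Valid g c i K n x} ∩ ({x | Dst g c i K n x} ∩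
    ({x | sumD g c i K ν (n+2) x ≤ ENNReal.ofReal H} ∩
    {x | dens ν (word g c i K n) x + dens ν (word g c i K (n+1)) x ≤ 2⁻¹})) with hI
  have hIm : MeasurableSet I := (measurableSet_Valid n).inter ((measurableSet_Dst n).inter
    ((measurableSet_le (measurable_sumD ν _) measurable_const).inter
      (measurableSet_le ((measurable_dens ν _).add (measurable_dens ν _)) measurable_const)))
  have hnull : ν I = 0 := by
    by_contra hpos
    obtain ⟨B, hBI, hBm, hBpos, hBdis, hBsum⟩ := improve_aux' hq hH n I hIm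
      (fun x hx => hx.2.1) (fun x hx => hx.2.2.1) hpos
    obtain ⟨c', e1, e2, -, -, -, -⟩ := PCol.shift (ν := ν) n c (fun l => word g c i K l) K B hBm
      hBdis
      (fun x hx => g.adj i x ((hBI hx).1.mono (Nat.zero_le _)).1)
      (fun x hx => ((hBI hx).1.mono (Nat.zero_le _)).2)
      (fun x hx l hl => rfl)
      (fun x hx l hl => (hBI hx).1.free hl)
    have hop := hopt c'
    rw [e1, sum_telescope (fun l => ν.real (word g c i K l '' B))] at hop
    have h3 := sum_three (fun l => ν.real (word g c i K l '' B)) (fun l => measureReal_nonneg) n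
    have hm0 : ν.real (word g c i K 0 '' B) = ν.real B := by
      congr 1
      change (fun x => x) '' B = B
      simp
    have hmn : ν.real (word g c i K n '' B) + ν.real (word g c i K (n+1) '' B) ≤
        (1/2) * ν.real B := by
      have h1 : ν (word g c i K n '' B) + ν (word g c i K (n+1) '' B) ≤ 2⁻¹ * ν B := by
        rw [← (word_bdd g c i K hq n).setLIntegral_dens,
          ← (word_bdd g c i K hq (n+1)).setLIntegral_dens,
          ← lintegral_add_left (measurable_dens ν _)]
        calc _ ≤ ∫⁻ _ in B, (2⁻¹ : ℝ≥0∞) ∂ν :=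
              setLIntegral_mono measurable_const fun x hx => (hBI hx).2.2.2
          _ = 2⁻¹ * ν B := by rw [setLIntegral_const]
      have h2 := ENNReal.toReal_mono (ENNReal.mul_ne_top (by simp) (measure_ne_top _ _)) h1
      rw [ENNReal.toReal_add (measure_ne_top _ _) (measure_ne_top _ _), ENNReal.toReal_mul] at h2
      simpa [measureReal_def] using h2
    have hmn1 : 0 ≤ ν.real (word g c i K 1 '' B) := measureReal_nonneg
    have hmn2 : 0 ≤ ν.real (word g c i K n '' B) := measureReal_nonneg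
    have hmn3 : 0 ≤ ν.real (word g c i K (n+1) '' B) := measureReal_nonneg
    have hd : PCol.dst ν c c' ≤ 3 * (H * ν.real B) := by
      refine e2.trans ?_
      linarith
    have hcost : 1 / (12 * H) * PCol.dst ν c c' ≤ (1/4) * ν.real B := by
      calc 1 / (12 * H) * PCol.dst ν c c' ≤ 1 / (12 * H) * (3 * (H * ν.real B)) := by gcongr
        _ = (1/4) * ν.real B := by field_simp; ring
    rw [hm0] at hop
    linarith
  rw [ae_iff]
  refine measure_mono_null ?_ hnull
  intro x hx
  simp only [mem_ofPred_eq, Classical.not_imp, not_lt] at hx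
  exact ⟨hx.1, hx.2.1, hx.2.2.1, hx.2.2.2⟩

lemma improve_finish' (hq : QInv G ν C) {H : ℝ} (hH : 0 < H) (hopt : PCol.Opt ν (1 / (12 * H)) c)
    (n : ℕ) (k : Fin Δ) :
    ∀ᵐ x ∂ν, Valid g c i K n x → Dst g c i K n x → sumD g c i K ν (n+2) x ≤ ENNReal.ofReal H →
      Free g c i K n k x → c.S k (word g c i K (n+1) x) ≠ word g c i K (n+1) x := by
  set I : Set V := {x | Valid g c i K n x} ∩ ({x | Dst g c i K n x} ∩
    ({x | sumD g c i K ν (n+2) x ≤ ENNReal.ofReal H} ∩
    ({x | Free g c i K n k x} ∩ {x | c.S k (word g c i K (n+1) x) = word g c i K (n+1) x})))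
    with hI
  have hIm : MeasurableSet I := (measurableSet_Valid n).inter ((measurableSet_Dst n).inter
    ((measurableSet_le (measurable_sumD ν _) measurable_const).inter
      ((measurableSet_Free n k).inter
        (measurableSet_eq_fun ((c.meas k).comp (word g c i K (n+1)).measurable)
          (word g c i K (n+1)).measurable))))
  have hnull : ν I = 0 := by
    by_contra hpos
    obtain ⟨B, hBI, hBm, hBpos, hBdis, hBsum⟩ := improve_aux' hq hH n I hIm
      (fun x hx => hx.2.1) (fun x hx => hx.2.2.1) hpos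
    obtain ⟨c1, e1, e2, e3, e4, e5, e6⟩ := PCol.shift (ν := ν) n c (fun l => word g c i K l) K B hBm
      hBdis
      (fun x hx => g.adj i x ((hBI hx).1.mono (Nat.zero_le _)).1)
      (fun x hx => ((hBI hx).1.mono (Nat.zero_le _)).2)
      (fun x hx l hl => rfl)
      (fun x hx l hl => (hBI hx).1.free hl)
    obtain ⟨c', f1, f2⟩ := PCol.finishStep (ν := ν) c1 k (word g c i K n) (word g c i K (n+1)) B hBm
      (hBdis n (n+1) (by omega) (by omega) (by omega)) e3 e4
      (fun x hx => e5 x hx k (hBI hx).2.2.2.1) (fun x hx => e6 x hx k (hBI hx).2.2.2.2)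
    have hop := hopt c'
    rw [f1, e1, sum_telescope (fun l => ν.real (word g c i K l '' B))] at hop
    have h3 := sum_three (fun l => ν.real (word g c i K l '' B)) (fun l => measureReal_nonneg) n
    have hm0 : ν.real (word g c i K 0 '' B) = ν.real B := by
      congr 1
      change (fun x => x) '' B = B
      simp
    have hmn1 : 0 ≤ ν.real (word g c i K 1 '' B) := measureReal_nonneg
    have hd : PCol.dst ν c c' ≤ 3 * (H * ν.real B) := by
      refine (PCol.dst_triangle c c1 c').trans ?_
      refine (add_le_add e2 f2).trans ?_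
      linarith
    have hcost : 1 / (12 * H) * PCol.dst ν c c' ≤ (1/4) * ν.real B := by
      calc 1 / (12 * H) * PCol.dst ν c c' ≤ 1 / (12 * H) * (3 * (H * ν.real B)) := by gcongr
        _ = (1/4) * ν.real B := by field_simp; ring
    rw [hm0] at hop
    linarith
  rw [ae_iff]
  refine measure_mono_null ?_ hnull
  intro x hx
  simp only [mem_ofPred_eq, Classical.not_imp, not_not] at hx
  exact ⟨hx.1, hx.2.1, hx.2.2.1, hx.2.2.2.1, hx.2.2.2.2⟩

end

lemma Dst_congr (g : Gen G Δ) (c : PCol G Δ) (i : ℕ) {K K' : ℕ → Fin Δ} (n : ℕ)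
    (h : ∀ j, 1 ≤ j → j ≤ n → K j = K' j) (x : V) :
    Dst g c i K n x ↔ Dst g c i K' n x := by
  unfold Dst
  have hw : ∀ l, l ≤ n + 1 → word g c i K l = word g c i K' l := fun l hl =>
    word_congr g c i l fun j h1 h2 => h j h1 (by omega)
  constructor
  · intro hd l l' hl hl' hne
    rw [← hw l hl, ← hw l' hl']
    exact hd l l' hl hl' hne
  · intro hd l l' hl hl' hne
    rw [hw l hl, hw l' hl']
    exact hd l l' hl hl' hne

/-- The points at which everything works. -/
structure Good (g : Gen G Δ) (c : PCol G Δ) (ν : Measure V) (C H : ℝ≥0∞) (x : V) : Prop where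
  ni : ∀ (i n : ℕ) (K : ℕ → Fin Δ), Valid g c i K n x → Dst g c i K n x →
    sumD g c i K ν (n+2) x ≤ H →
    (∀ k, Free g c i K n k x → c.S k (word g c i K (n+1) x) ≠ word g c i K (n+1) x) ∧
    2⁻¹ < dens ν (word g c i K n) x + dens ν (word g c i K (n+1)) x
  co : ∀ (i l : ℕ) (K : ℕ → Fin Δ), dens ν (word g c i K (l+2)) x =
      dens ν (word g c i K (l+1)) x * dS ν c (K (l+1)) (word g c i K (l+1) x)
  le : ∀ (i l : ℕ) (K : ℕ → Fin Δ), dens ν (word g c i K l) x ≤ C ^ l

lemma ae_good (g : Gen G Δ) {c : PCol G Δ} {ν : Measure V} [IsFiniteMeasure ν] {C : ℝ≥0∞}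
    (hq : QInv G ν C) {H : ℝ} (hH : 0 < H) (hopt : PCol.Opt ν (1 / (12 * H)) c) :
    ∀ᵐ x ∂ν, Good g c ν C (ENNReal.ofReal H) x := by
  have hw : ∀ (n : ℕ) (K : ℕ → Fin Δ) (j : ℕ), 1 ≤ j → j ≤ n →
      extK (fun a : Fin (n+1) => K a) j = K j := fun n K j _ hj => extK_eq K hj
  have h1 : ∀ᵐ x ∂ν, ∀ (i n : ℕ) (w : Fin (n+1) → Fin Δ), (Valid g c i (extK w) n x →
      Dst g c i (extK w) n x → sumD g c i (extK w) ν (n+2) x ≤ ENNReal.ofReal H →
      2⁻¹ < dens ν (word g c i (extK w) n) x + dens ν (word g c i (extK w) (n+1)) x) ∧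
      (∀ k, Valid g c i (extK w) n x → Dst g c i (extK w) n x →
        sumD g c i (extK w) ν (n+2) x ≤ ENNReal.ofReal H →
        Free g c i (extK w) n k x →
        c.S k (word g c i (extK w) (n+1) x) ≠ word g c i (extK w) (n+1) x) := by
    rw [ae_all_iff]; intro i
    rw [ae_all_iff]; intro n
    rw [ae_all_iff]; intro w
    refine (improve_move' hq hH hopt n).and ?_
    rw [ae_all_iff]
    intro k
    exact improve_finish' hq hH hopt n k
  have h2 : ∀ᵐ x ∂ν, ∀ (i l : ℕ) (w : Fin (l+2) → Fin Δ), dens ν (word g c i (extK w) (l+2)) x =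
      dens ν (word g c i (extK w) (l+1)) x *
        dS ν c (extK w (l+1)) (word g c i (extK w) (l+1) x) := by
    rw [ae_all_iff]; intro i
    rw [ae_all_iff]; intro l
    rw [ae_all_iff]; intro w
    exact word_dens hq g c i (extK w) l
  have h3 : ∀ᵐ x ∂ν, ∀ (i l : ℕ) (w : Fin (l+1) → Fin Δ),
      dens ν (word g c i (extK w) l) x ≤ C ^ l := by
    rw [ae_all_iff]; intro i
    rw [ae_all_iff]; intro l
    rw [ae_all_iff]; intro w
    exact (word_bdd g c i (extK w) hq l).dens_le
  filter_upwards [h1, h2, h3] with x hx1 hx2 hx3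
  refine ⟨?_, ?_, ?_⟩
  · intro i n K hv hd hs
    have hK := hw n K
    obtain ⟨ha, hb⟩ := hx1 i n (fun a => K a)
    rw [Valid_congr g c i n hK, Dst_congr g c i n hK,
      sumD_congr g c i ν (n+2) (fun j h1 h2 => hK j h1 (by omega))] at ha hb
    rw [word_congr g c i n (fun j h1 h2 => hK j h1 (by omega)),
      word_congr g c i (n+1) (fun j h1 h2 => hK j h1 (by omega))] at ha
    refine ⟨fun k hk => ?_, ha hv hd hs⟩
    have := hb k hv hd hs ((Free_congr g c i n (fun j h1 h2 => hK j h1 (by omega)) k x).2 hk)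
    rwa [word_congr g c i (n+1) (fun j h1 h2 => hK j h1 (by omega))] at this
  · intro i l K
    have hK := hw (l+1) K
    have := hx2 i l (fun a => K a)
    rwa [word_congr g c i (l+2) (fun j h1 h2 => hK j h1 (by omega)),
      word_congr g c i (l+1) (fun j h1 h2 => hK j h1 (by omega)),
      hK (l+1) (by omega) le_rfl] at this
  · intro i l K
    have := hx3 i l (fun a => K a)
    rwa [word_congr g c i l (fun j h1 h2 => hw l K j h1 (by omega))] at this

end Pool.Agent.MEG
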