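import Pool.Agent.MEG.Girth

open Set
open scoped ENNReal

set_option linter.unusedSectionVars false

namespace Pool.Agent.MEG

open Pool.Agent.MEC

variable {V : Type*} [MeasurableSpace V] {G : SimpleGraph V} {Δ : ℕ}

/-- States of the static token walk: the front vertex `y_(n+1)` and the last two colours. -/
abbrev State (V : Type*) (Δ : ℕ) := V × Fin Δ × Fin Δ

/-- The next state when the colour `k` is chosen. -/
def nxt (c : PCol G Δ) (σ : State V Δ) (k : Fin Δ) : State V Δ := (c.S k σ.1, σ.2.2, k)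

open Classical in
/-- Weights of the static token walk: to stay has weight `1`, to switch has weight `1/Δ`. -/
noncomputable def qq (c : PCol G Δ) (m : V → Fin Δ) (σ : State V Δ) (k : Fin Δ) : ℝ≥0∞ :=
  if c.S k σ.1 ≠ σ.1 ∧ k ≠ σ.2.2 then
    (if k = σ.2.1 ∧ c.S k (c.S σ.2.2 σ.1) ≠ c.S σ.2.2 σ.1 then 1
    else if k = m (c.S σ.2.2 σ.1) ∧ c.S k (c.S σ.2.2 σ.1) = c.S σ.2.2 σ.1 then (Δ : ℝ≥0∞)⁻¹
    else 0)
  else 0

/-- The transfer operator. -/
noncomputable def TT (c : PCol G Δ) (m : V → Fin Δ) (F : State V Δ → ℝ≥0∞) (σ : State V Δ) :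
    ℝ≥0∞ := ∑ k, qq c m σ k * F (nxt c σ k)

variable (c : PCol G Δ) (m : V → Fin Δ)

lemma TT_add (F F' : State V Δ → ℝ≥0∞) : TT c m (F + F') = TT c m F + TT c m F' := by
  funext σ
  simp only [TT, Pi.add_apply, mul_add, Finset.sum_add_distrib]

lemma TT_smul (a : ℝ≥0∞) (F : State V Δ → ℝ≥0∞) : TT c m (a • F) = a • TT c m F := by
  funext σ
  simp only [TT, Pi.smul_apply, smul_eq_mul, Finset.mul_sum]
  refine Finset.sum_congr rfl fun k _ => ?_
  ring

lemma TT_sum {ι : Type*} (s : Finset ι) (F : ι → State V Δ → ℝ≥0∞) :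
    TT c m (∑ i ∈ s, F i) = ∑ i ∈ s, TT c m (F i) := by
  funext σ
  simp only [TT, Finset.sum_apply, Finset.mul_sum]
  rw [Finset.sum_comm]

lemma iter_sum {ι : Type*} (s : Finset ι) (F : ι → State V Δ → ℝ≥0∞) (n : ℕ) :
    (TT c m)^[n] (∑ i ∈ s, F i) = ∑ i ∈ s, (TT c m)^[n] (F i) := by
  induction n generalizing F with
  | zero => rfl
  | succ n ih =>
    rw [Function.iterate_succ_apply, TT_sum, ih]
    rfl

lemma iter_smul (a : ℝ≥0∞) (F : State V Δ → ℝ≥0∞) (n : ℕ) :
    (TT c m)^[n] (a • F) = a • (TT c m)^[n] F := by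
  induction n generalizing F with
  | zero => rfl
  | succ n ih => rw [Function.iterate_succ_apply, TT_smul, ih]; rfl

open Classical in
/-- point function at a state -/
noncomputable def dl (τ : State V Δ) : State V Δ → ℝ≥0∞ := fun σ => if σ = τ then 1 else 0

open Classical in
/-- indicator of the states at the vertex `v` -/
noncomputable def dv (v : V) : State V Δ → ℝ≥0∞ := fun σ => if σ.1 = v then 1 else 0

lemma dv_eq (v : V) : dv (Δ := Δ) v = ∑ p : Fin Δ × Fin Δ, dl (v, p) := by
  classical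
  funext σ
  obtain ⟨z, p⟩ := σ
  simp only [dv, Finset.sum_apply, dl, Prod.mk.injEq]
  by_cases h : z = v
  · simp [h]
  · simp [h]

/-- the predecessors of a state -/
def prd (τ : State V Δ) (a : Fin Δ) : State V Δ := (c.S τ.2.2 τ.1, a, τ.2.1)

lemma nxt_eq_iff {σ τ : State V Δ} {k : Fin Δ} :
    nxt c σ k = τ ↔ k = τ.2.2 ∧ ∃ a, σ = prd c τ a := by
  obtain ⟨z, a, b⟩ := σ
  obtain ⟨z', b', k'⟩ := τ
  simp only [nxt, prd, Prod.mk.injEq]
  constructor
  · rintro ⟨rfl, rfl, rfl⟩
    exact ⟨rfl, a, (c.invol _ _).symm, rfl, rfl⟩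
  · rintro ⟨rfl, a', rfl, rfl, rfl⟩
    exact ⟨c.invol _ _, rfl, rfl⟩

lemma TT_dl (τ : State V Δ) :
    TT c m (dl τ) = ∑ a, (qq c m (prd c τ a) τ.2.2) • dl (prd c τ a) := by
  classical
  funext σ
  simp only [TT, Finset.sum_apply, Pi.smul_apply, smul_eq_mul]
  by_cases h : ∃ a, σ = prd c τ a
  · obtain ⟨a, rfl⟩ := h
    rw [Finset.sum_eq_single τ.2.2, Finset.sum_eq_single a]
    · have : nxt c (prd c τ a) τ.2.2 = τ := (nxt_eq_iff c).2 ⟨rfl, a, rfl⟩
      rw [this]
      simp [dl]
    · intro b _ hb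
      have : prd c τ a ≠ prd c τ b := by
        intro he
        simp only [prd, Prod.mk.injEq] at he
        exact hb he.2.1.symm
      simp [dl, this]
    · simp
    · intro k _ hk
      have : nxt c (prd c τ a) k ≠ τ := fun he => hk ((nxt_eq_iff c).1 he).1
      simp [dl, this]
    · simp
  · rw [Finset.sum_eq_zero, Finset.sum_eq_zero]
    · intro a _
      have : σ ≠ prd c τ a := fun he => h ⟨a, he⟩
      simp [dl, this]
    · intro k _
      have : nxt c σ k ≠ τ := fun he => h ((nxt_eq_iff c).1 he).2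
      simp [dl, this]

/-- The total weight flowing into a state is at most `1`. -/
lemma inflow_le (τ : State V Δ) : ∑ a, qq c m (prd c τ a) τ.2.2 ≤ 1 := by
  classical
  obtain ⟨z', b, k⟩ := τ
  simp only [prd]
  set z := c.S k z' with hz
  set y := c.S b z with hy
  by_cases hk : c.S k y = y
  · calc ∑ a, qq c m (z, a, b) k ≤ ∑ _a : Fin Δ, (Δ : ℝ≥0∞)⁻¹ := by
          refine Finset.sum_le_sum fun a _ => ?_
          unfold qq
          simp only [← hy]
          split_ifs with h1 h2 h3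
          · exact absurd hk h2.2
          · exact le_rfl
          · exact bot_le
          · exact bot_le
      _ = (Δ : ℝ≥0∞) * (Δ : ℝ≥0∞)⁻¹ := by simp
      _ ≤ 1 := ENNReal.mul_inv_le_one _
  · calc ∑ a, qq c m (z, a, b) k ≤ ∑ a, (if a = k then (1 : ℝ≥0∞) else 0) := by
          refine Finset.sum_le_sum fun a _ => ?_
          unfold qq
          simp only [← hy]
          by_cases hak : a = k
          · subst hak
            rw [if_pos rfl]
            split_ifs
            · exact le_rfl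
            · simp only [ENNReal.inv_le_one]
              exact_mod_cast (Fin.pos a)
            · exact bot_le
            · exact bot_le
          · rw [if_neg hak]
            split_ifs with h1 h2 h3
            · exact absurd h2.1.symm hak
            · exact absurd h3.2 hk
            · exact le_rfl
            · exact le_rfl
      _ = 1 := by simp

lemma iter_dl_le (n : ℕ) (τ σ : State V Δ) : (TT c m)^[n] (dl τ) σ ≤ 1 := by
  classical
  induction n generalizing τ with
  | zero =>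
    simp only [Function.iterate_zero, id_eq, dl]
    split_ifs
    · exact le_rfl
    · exact bot_le
  | succ n ih =>
    rw [Function.iterate_succ_apply, TT_dl, iter_sum]
    simp only [iter_smul, Finset.sum_apply, Pi.smul_apply, smul_eq_mul]
    calc ∑ a, qq c m (prd c τ a) τ.2.2 * (TT c m)^[n] (dl (prd c τ a)) σ
        ≤ ∑ a, qq c m (prd c τ a) τ.2.2 * 1 := by
          refine Finset.sum_le_sum fun a _ => ?_
          gcongr
          exact ih _
      _ ≤ 1 := by simpa using inflow_le c m τ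

lemma iter_dv_le (n : ℕ) (v : V) (σ : State V Δ) :
    (TT c m)^[n] (dv v) σ ≤ (Δ : ℝ≥0∞) ^ 2 := by
  rw [dv_eq, iter_sum]
  simp only [Finset.sum_apply]
  calc ∑ p : Fin Δ × Fin Δ, (TT c m)^[n] (dl (v, p)) σ ≤ ∑ _p : Fin Δ × Fin Δ, (1 : ℝ≥0∞) :=
        Finset.sum_le_sum fun p _ => iter_dl_le c m n _ σ
    _ = (Δ : ℝ≥0∞) ^ 2 := by simp [sq]

/-- A positive weight of visiting `v` gives a non-backtracking walk. -/
lemma exists_walk_of_iter_ne_zero (n : ℕ) (v : V) : ∀ (N : ℕ) (y : ℕ → V) (σ : State V Δ),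
    (∀ l < N, G.Adj (y l) (y (l+1))) → (∀ l, l + 2 ≤ N → y (l+2) ≠ y l) → σ.1 = y N →
    (∀ l, l + 1 = N → c.S σ.2.2 (y N) = y l) → (TT c m)^[n] (dv v) σ ≠ 0 →
    ∃ y' : ℕ → V, (∀ l ≤ N, y' l = y l) ∧ (∀ l < N + n, G.Adj (y' l) (y' (l+1))) ∧
      (∀ l, l + 2 ≤ N + n → y' (l+2) ≠ y' l) ∧ y' (N + n) = v := by
  classical
  induction n with
  | zero =>
    intro N y σ hadj hnb hσ hb hne
    refine ⟨y, fun _ _ => rfl, hadj, hnb, ?_⟩
    simp only [Function.iterate_zero, id_eq, dv] at hne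
    by_contra hcon
    apply hne
    rw [if_neg]
    rw [hσ]
    exact hcon
  | succ n ih =>
    intro N y σ hadj hnb hσ hb hne
    rw [Function.iterate_succ_apply'] at hne
    obtain ⟨k, -, hk⟩ := Finset.exists_ne_zero_of_sum_ne_zero hne
    have h1 : qq c m σ k ≠ 0 := left_ne_zero_of_mul hk
    have h2 : (TT c m)^[n] (dv v) (nxt c σ k) ≠ 0 := right_ne_zero_of_mul hk
    have h3 : c.S k σ.1 ≠ σ.1 ∧ k ≠ σ.2.2 := by
      by_contra hcon
      apply h1
      unfold qq
      rw [if_neg hcon]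
    set y1 : ℕ → V := fun l => if l ≤ N then y l else c.S k σ.1 with hy1
    have e1 : ∀ l, l ≤ N → y1 l = y l := fun l hl => by simp [hy1, hl]
    have e2 : y1 (N+1) = c.S k (y N) := by simp [hy1, hσ]
    have IH := ih (N+1) y1 (nxt c σ k) ?_ ?_ ?_ ?_ h2
    · obtain ⟨y', g1, g2, g3, g4⟩ := IH
      refine ⟨y', fun l hl => ?_, fun l hl => g2 l (by omega), fun l hl => g3 l (by omega), ?_⟩
      · rw [g1 l (by omega), e1 l hl]
      · rw [← g4]; congr 1; omega
    · intro l hl
      rcases Nat.lt_or_ge l N with h | h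
      · rw [e1 l h.le, e1 (l+1) h]; exact hadj l h
      · have : l = N := by omega
        subst this
        rw [e1 l le_rfl, e2]
        refine c.adj k _ ?_
        rw [← hσ]; exact h3.1
    · intro l hl
      rcases Nat.lt_or_ge (l+1) N with h | h
      · rw [e1 l (by omega), e1 (l+2) (by omega)]; exact hnb l (by omega)
      · have hl' : l + 1 = N := by omega
        have e3 : y1 (l+2) = c.S k (y N) := by rw [← e2]; congr 1; omega
        rw [e3, e1 l (by omega)]
        intro he
        apply h3.2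
        rw [← hb l hl', ← hσ] at he
        exact c.disj _ _ _ he h3.1
    · simp only [nxt]
      rw [e2, hσ]
    · intro l hl
      have : l = N := by omega
      subst this
      simp only [nxt]
      rw [e2, c.invol, e1 l le_rfl]

/-- No short static returns. -/
lemma iter_eq_zero {r : ℕ} (hG : NBg G r) {n N : ℕ} (y : ℕ → V) (σ : State V Δ)
    (hadj : ∀ l < N, G.Adj (y l) (y (l+1))) (hnb : ∀ l, l + 2 ≤ N → y (l+2) ≠ y l)
    (hσ : σ.1 = y N) (hb : ∀ l, l + 1 = N → c.S σ.2.2 (y N) = y l)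
    {j : ℕ} (hj : j ≤ N) (h1 : 1 ≤ N - j + n) (h2 : N - j + n ≤ r) :
    (TT c m)^[n] (dv (y j)) σ = 0 := by
  by_contra hne
  obtain ⟨y', g1, g2, g3, g4⟩ := exists_walk_of_iter_ne_zero c m n (y j) N y σ hadj hnb hσ hb hne
  refine hG (fun l => y' (j + l)) (N - j + n) h2 (fun l hl => g2 (j+l) (by omega))
    (fun l hl => g3 (j+l) (by omega)) (N - j + n) 0 le_rfl (by omega) (by omega) ?_
  simp only [Nat.add_zero]
  rw [g1 j hj, ← g4]
  congr 1
  omega

end Pool.Agent.MEG
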