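import Pool.Agent.MEG.Par2

open MeasureTheory Set Filter
open scoped ENNReal

set_option linter.unusedSectionVars false

namespace Pool.Agent.MEG

open Pool.Agent.MEC

variable {V : Type*} [MeasurableSpace V] [StandardBorelSpace V]
variable {G : SimpleGraph V} {Δ R : ℕ}

lemma three_le_gb (hΔ : 0 < Δ) : 3 ≤ gb Δ R := by
  unfold gb
  have h1 : 0 < Nat.clog 2 (8 * Δ ^ 2 * (R + 1)) := by
    apply Nat.clog_pos (by norm_num)
    have : 0 < Δ ^ 2 * (R + 1) := by positivity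
    nlinarith
  have h2 : 0 < 8 * Δ * (R + 1) * Nat.clog 2 (8 * Δ ^ 2 * (R + 1)) := by positivity
  omega

lemma le_gb (hΔ : 0 < Δ) : R ≤ gb Δ R := by
  unfold gb
  have h1 : 0 < Nat.clog 2 (8 * Δ ^ 2 * (R + 1)) := by
    apply Nat.clog_pos (by norm_num)
    have : 0 < Δ ^ 2 * (R + 1) := by positivity
    nlinarith
  have h2 : 1 ≤ 8 * Δ * Nat.clog 2 (8 * Δ ^ 2 * (R + 1)) := by
    have : 0 < 8 * Δ * Nat.clog 2 (8 * Δ ^ 2 * (R + 1)) := by positivity
    omega
  calc R ≤ (8 * Δ * Nat.clog 2 (8 * Δ ^ 2 * (R + 1))) * (R + 1) := by nlinarith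
    _ = 8 * Δ * (R + 1) * Nat.clog 2 (8 * Δ ^ 2 * (R + 1)) := by ring
    _ ≤ _ := by omega

lemma FE_bound' {μ : Measure V} [IsFiniteMeasure μ] (g : Gen G Δ) (hΔ : 0 < Δ)
    (hG : NBg G (gb Δ R)) (hR : Sparse G Δ R) {ν : Measure V} [IsFiniteMeasure ν]
    (hq : QInv G ν (Gen.CC Δ)) {c : PCol G Δ} {s : ℕ} (hs : 2 ≤ s)
    (hopt : PCol.Opt ν (1 / (12 * HG Δ R s)) c) :
    (FE ν g c).toReal ≤
      2 * Δ ^ 3 * ν.real univ * (N0 Δ R s + 1 : ℕ) / (LamR Δ R s * zR Δ R ^ 2) := by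
  have h1 := FE_le_of_par g ⟨0, hΔ⟩ hq (par_scale hΔ hs) hG (three_le_gb hΔ) hR (RP3 hΔ)
    (HG_pos hΔ s) hopt
  have h2 := ENNReal.toReal_mono (ENNReal.mul_ne_top (by simp)
    (ENNReal.mul_ne_top (by simp) (measure_ne_top ν _))) h1
  have hL := LamR_pos (R := R) hΔ s
  have hz := zR_pos (R := R) hΔ
  rw [ENNReal.toReal_mul, ENNReal.toReal_mul, ENNReal.toReal_mul, ENNReal.toReal_mul,
    ENNReal.toReal_mul, ENNReal.toReal_inv, ENNReal.toReal_pow, ENNReal.toReal_pow,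
    ENNReal.toReal_natCast, ENNReal.toReal_natCast,
    ENNReal.toReal_ofReal hL.le, ENNReal.toReal_ofReal hz.le] at h2
  rw [le_div_iff₀ (by positivity)]
  have h3 : (ν univ).toReal = ν.real univ := rfl
  rw [h3] at h2
  have h4 : (2 : ℝ≥0∞).toReal = 2 := by simp
  rw [h4] at h2
  linarith

/-- The main construction: an almost everywhere total colouring with `Δ` colours, for graphs of
large girth. -/
theorem exists_total' (g : Gen G Δ) (hG : NBg G (gb Δ R)) (hR' : 0 < Δ → Sparse G Δ R)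
    (μ : Measure V) [IsFiniteMeasure μ] :
    ∃ c : PCol G Δ, ∀ᵐ x ∂μ, ∀ y, G.Adj x y → ∃ k, c.S k x = y := by
  rcases Nat.eq_zero_or_pos Δ with hΔ | hΔ
  · refine ⟨PCol.empty G Δ, ?_⟩
    refine Filter.Eventually.of_forall fun x y hxy => ?_
    exfalso
    obtain ⟨i, hi⟩ := g.cover x y hxy
    have := g.card x {i} (by
      intro a ha
      rw [Finset.mem_singleton.1 ha, hi]
      exact hxy.ne.symm)
    rw [Finset.card_singleton] at this
    omega
  have hR := hR' hΔ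
  have hz := zR_pos (R := R) hΔ
  have hz1 := zR_lt_one (R := R) hΔ
  have hCR := CR_pos Δ
  have hT := two_le_TR (R := R) hΔ
  set ν := g.nu μ with hν
  have hνfin : IsFiniteMeasure ν := ⟨g.nu_univ_lt_top μ⟩
  have hq : QInv G ν (Gen.CC Δ) := g.qinv_nu μ
  -- the sequence of nearly optimal colourings
  have hlam : ∀ n, 0 < 1 / (12 * HG Δ R n) := fun n => by
    have := HG_pos (R := R) hΔ n; positivity
  choose next hn1 hn2 using fun (n : ℕ) (c : PCol G Δ) =>
    PCol.exists_opt (ν := ν) (1 / (12 * HG Δ R n)) (hlam n) c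
  let c : ℕ → PCol G Δ := fun n => Nat.rec (PCol.empty G Δ) (fun n c => next (n+2) c) n
  have hcs : ∀ n, c (n+1) = next (n+2) (c n) := fun n => rfl
  have hopt : ∀ n, PCol.Opt ν (1 / (12 * HG Δ R (n+2))) (c (n+1)) := fun n => by
    rw [hcs]; exact hn1 (n+2) (c n)
  have hdst : ∀ n, (c (n+1)).Phi ν + 1 / (12 * HG Δ R (n+2)) * PCol.dst ν (c n) (c (n+1)) ≤
      (c n).Phi ν := fun n => by
    rw [hcs]; exact hn2 (n+2) (c n)
  have hF : ∀ n, (FE ν g (c (n+1))).toReal ≤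
      2 * Δ ^ 3 * ν.real univ * (N0 Δ R (n+2) + 1 : ℕ) / (LamR Δ R (n+2) * zR Δ R ^ 2) :=
    fun n => FE_bound' (μ := μ) g hΔ hG hR hq (by omega) (hopt n)
  set A := 2 * (Δ : ℝ) ^ 3 * ν.real univ with hA
  have hA0 : 0 ≤ A := by positivity
  -- the summable majorant
  set M : ℕ → ℝ := fun n => ((N0 Δ R (n+2) + 1 : ℕ) : ℝ) * zR Δ R ^ n with hM
  have hMsum : Summable M := by
    have e : ∀ n, M n = ((4 * Δ * (R + 1) * (2 * Δ + 3) + 1 : ℕ) : ℝ) * ((n : ℝ) ^ 1 * zR Δ R ^ n)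
        + ((N0 Δ R 2 + 1 : ℕ) : ℝ) * zR Δ R ^ n := by
      intro n
      simp only [hM]
      unfold N0
      push_cast
      ring
    have h1 : Summable fun n : ℕ => (n : ℝ) ^ 1 * zR Δ R ^ n :=
      summable_pow_mul_geometric_of_norm_lt_one 1 (by
        rw [Real.norm_eq_abs, abs_of_pos hz]; exact hz1)
    have h2 : Summable fun n : ℕ => zR Δ R ^ n := summable_geometric_of_lt_one hz.le hz1
    exact ((h1.mul_left _).add (h2.mul_left _)).congr fun n => (e n).symm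
  have hLam : ∀ n, LamR Δ R (n+2) * zR Δ R ^ 2 = CR Δ ^ (n+2) / zR Δ R ^ n := by
    intro n
    rw [eq_div_iff (by positivity), mul_assoc, ← pow_add, add_comm 2 n, LamR_mul hΔ]
  have hF' : ∀ n, (FE ν g (c (n+1))).toReal ≤ A / CR Δ ^ (n+2) * M n := by
    intro n
    refine (hF n).trans (le_of_eq ?_)
    rw [hLam n]
    simp only [hM]
    field_simp
  have hd2 : ∀ n, PCol.dst ν (c (n+1)) (c (n+1+1)) ≤
      12 * (CR Δ * (CR Δ + 4 * TR Δ R)) * A * M n := by
    intro n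
    have h1 := hdst (n+1)
    have h2 := Phi_le_add_FE ν g (c (n+1)) (c (n+1+1))
    have h3 := hF' n
    have hH2 := HG_pos (R := R) hΔ (n+1+2)
    have h4 : 1 / (12 * HG Δ R (n+1+2)) * PCol.dst ν (c (n+1)) (c (n+1+1)) ≤
        A / CR Δ ^ (n+2) * M n := by linarith
    have h5 : PCol.dst ν (c (n+1)) (c (n+1+1)) ≤
        12 * HG Δ R (n+1+2) * (A / CR Δ ^ (n+2) * M n) := by
      have h6 : PCol.dst ν (c (n+1)) (c (n+1+1)) = 12 * HG Δ R (n+1+2) *
          (1 / (12 * HG Δ R (n+1+2)) * PCol.dst ν (c (n+1)) (c (n+1+1))) := by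
        field_simp
      rw [h6]
      exact mul_le_mul_of_nonneg_left h4 (by positivity)
    refine h5.trans (le_of_eq ?_)
    have e : n + 1 + 2 = (n + 2) + 1 := by ring
    rw [e, HG_succ]
    unfold HG
    field_simp
  have hsum1 : Summable fun n => PCol.dst ν (c (n+1)) (c (n+1+1)) :=
    Summable.of_nonneg_of_le (fun n => PCol.dst_nonneg _ _) hd2 (hMsum.mul_left _)
  have hsum : Summable fun n => PCol.dst ν (c n) (c (n+1)) :=
    (summable_nat_add_iff 1).1 hsum1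
  -- summability of the uncoloured parts
  have hFs : Summable fun n => (FE ν g (c (n+1))).toReal := by
    refine Summable.of_nonneg_of_le (fun n => ENNReal.toReal_nonneg) (fun n => ?_)
      (hMsum.mul_left A)
    refine (hF' n).trans ?_
    have hM0 : 0 ≤ M n := by
      simp only [hM]; positivity
    refine mul_le_mul_of_nonneg_right ?_ hM0
    exact div_le_self hA0 (one_le_pow₀ one_le_CR)
  have hFsum : ∀ i, ∑' n, ν (Unc g (c (n+1)) i) ≠ ⊤ := by
    intro i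
    refine ne_top_of_le_ne_top hFs.tsum_ofReal_ne_top (ENNReal.tsum_le_tsum fun n => ?_)
    rw [ENNReal.ofReal_toReal (FE_ne_top ν g _)]
    exact ENNReal.le_tsum i
  refine ⟨PCol.lim c, ?_⟩
  have hae : ∀ᵐ x ∂ν, ∀ y, G.Adj x y → ∃ k, (PCol.lim c).S k x = y := by
    have h1 := PCol.ae_eventually_eq_lim (ν := ν) c hsum
    have h2 : ∀ᵐ x ∂ν, ∀ i, ∀ᶠ n in atTop, x ∉ Unc g (c (n+1)) i := by
      rw [ae_all_iff]
      exact fun i => ae_eventually_notMem (hFsum i)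
    filter_upwards [h1, h2] with x hx1 hx2 y hxy
    by_contra hcon
    push Not at hcon
    obtain ⟨i, hi⟩ := g.cover x y hxy
    have h3 : ∀ᶠ n in atTop, ∀ k, (c n).S k x = (PCol.lim c).S k x :=
      Filter.eventually_all.2 hx1
    have h3' : ∀ᶠ n in atTop, ∀ k, (c (n+1)).S k x = (PCol.lim c).S k x :=
      (tendsto_add_atTop_nat 1).eventually h3
    obtain ⟨n, hn1, hn2⟩ := (h3'.and (hx2 i)).exists
    apply hn2
    refine ⟨?_, fun k => ?_⟩
    · rw [hi]; exact hxy.ne.symm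
    · rw [hn1 k, hi]; exact hcon k
  exact (Measure.absolutelyContinuous_of_le (g.le_nu μ)) hae

end Pool.Agent.MEG
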