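import Pool.Agent.MEG.Params

open MeasureTheory Set Filter
open scoped ENNReal

set_option linter.unusedSectionVars false

namespace Pool.Agent.MEG

open Pool.Agent.MEC

variable {Δ R : ℕ}

lemma one_sub_z (hΔ : 0 < Δ) :
    (1 - ENNReal.ofReal (zR Δ R))⁻¹ = ENNReal.ofReal (2 * TR Δ R) := by
  have h1 := two_le_TR (R := R) hΔ
  rw [← ENNReal.ofReal_one, ← ENNReal.ofReal_sub _ (zR_pos hΔ).le]
  have e : 1 - zR Δ R = (2 * TR Δ R)⁻¹ := by unfold zR; ring
  rw [e, ENNReal.ofReal_inv_of_pos (by linarith), inv_inv]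

lemma geom_le {C : ℝ≥0∞} (hC : 2 ≤ C) (n : ℕ) : ∑ l ∈ Finset.range n, C ^ l ≤ C ^ n := by
  induction n with
  | zero => simp
  | succ n ih =>
    rw [Finset.sum_range_succ, pow_succ']
    calc _ ≤ C ^ n + C ^ n := by gcongr
      _ = 2 * C ^ n := by ring
      _ ≤ C * C ^ n := by gcongr

lemma ofReal_zR_pow (hΔ : 0 < Δ) (n : ℕ) :
    ENNReal.ofReal (zR Δ R) ^ n = ENNReal.ofReal (zR Δ R ^ n) :=
  (ENNReal.ofReal_pow (zR_pos hΔ).le n).symm

theorem par_scale (hΔ : 0 < Δ) {s : ℕ} (hs : 2 ≤ s) :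
    Par Δ R (gb Δ R) (N0 Δ R s) (ENNReal.ofReal (zR Δ R)) (ENNReal.ofReal (tR Δ R)) 2
      (ENNReal.ofReal (LamR Δ R s)) (ENNReal.ofReal (RPR Δ R)) (ENNReal.ofReal (HG Δ R s))
      (Gen.CC Δ) where
  z1 := ENNReal.ofReal_le_one.2 (zR_lt_one hΔ).le
  t1 := ENNReal.one_le_ofReal.2 (one_le_tR hΔ)
  tB := by
    rw [← ENNReal.ofReal_pow (by have := one_le_tR (R := R) hΔ; linarith)]
    have h1 : tR Δ R ^ R ≤ tR Δ R ^ (R + 1) := pow_le_pow_right₀ (one_le_tR hΔ) (by omega)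
    have h2 := tR_pow (R := R) hΔ
    have h3 : (Δ : ℝ)⁻¹ ≤ 1 := inv_le_one_of_one_le₀ (by exact_mod_cast hΔ)
    refine (ENNReal.ofReal_le_ofReal (q := 2) (by linarith)).trans (le_of_eq ?_)
    simp
  tR := by
    rw [← ENNReal.ofReal_pow (by have := one_le_tR (R := R) hΔ; linarith)]
    refine (ENNReal.ofReal_le_ofReal (tR_pow hΔ)).trans (le_of_eq ?_)
    have hΔ' : (0 : ℝ) < Δ := by exact_mod_cast hΔ
    rw [ENNReal.ofReal_add (by norm_num) (by positivity), ENNReal.ofReal_one,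
      ENNReal.ofReal_inv_of_pos hΔ', ENNReal.ofReal_natCast]
  rp := by
    have h0 := RPR_nonneg (R := R) hΔ
    have e : (1 : ℝ≥0∞) + 2 * ENNReal.ofReal (RPR Δ R) = ENNReal.ofReal (1 + 2 * RPR Δ R) := by
      rw [ENNReal.ofReal_add (by norm_num) (by positivity), ENNReal.ofReal_mul (by norm_num)]
      simp
    rw [e, ← ENNReal.ofReal_mul (zR_pos hΔ).le]
    exact ENNReal.ofReal_le_ofReal (rpR hΔ)
  rp' := by
    rw [one_sub_z hΔ, ofReal_zR_pow hΔ]
    unfold RPR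
    have h3 : 0 ≤ zR Δ R ^ (gb Δ R - 2) := pow_nonneg (zR_pos hΔ).le _
    have h4 : (0 : ℝ) ≤ (Δ : ℝ) ^ 2 := by positivity
    rw [ENNReal.ofReal_mul (mul_nonneg h4 h3), ENNReal.ofReal_mul h4,
      ENNReal.ofReal_pow (by positivity : (0 : ℝ) ≤ (Δ : ℝ)), ENNReal.ofReal_natCast]
  Bt := by simp
  Rt := ENNReal.ofReal_ne_top
  Lt := ENNReal.ofReal_ne_top
  N3 := by unfold N0; omega
  n0 := by
    have h := n0R (R := R) hΔ s
    have hL := (LamR_pos (R := R) hΔ s).le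
    have h3 : 0 ≤ zR Δ R ^ (N0 Δ R s - 1) := pow_nonneg (zR_pos hΔ).le _
    have e : (2 : ℝ≥0∞) * ENNReal.ofReal (LamR Δ R s) *
        ENNReal.ofReal (zR Δ R) ^ (N0 Δ R s - 1) =
        ENNReal.ofReal (2 * (LamR Δ R s * zR Δ R ^ (N0 Δ R s - 1))) := by
      rw [ENNReal.ofReal_mul (by norm_num), ENNReal.ofReal_mul hL, ofReal_zR_pow hΔ, mul_assoc]
      simp
    rw [e, ← ENNReal.ofReal_add (by positivity) (by positivity)]
    refine (ENNReal.ofReal_le_ofReal (q := 2⁻¹) (by linarith)).trans (le_of_eq ?_)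
    rw [ENNReal.ofReal_inv_of_pos (by norm_num)]
    simp
  light := by
    intro f n hf hf3
    have hC := two_le_CC Δ
    have hT := two_le_TR (R := R) hΔ
    have hCR := CR_pos Δ
    set z := ENNReal.ofReal (zR Δ R) with hz
    set L := ENNReal.ofReal (LamR Δ R s) with hL
    have hLz : L * z ^ s = Gen.CC Δ ^ s := by
      rw [hL, hz, ofReal_zR_pow hΔ, ← ENNReal.ofReal_mul (LamR_pos hΔ s).le, LamR_mul hΔ,
        ENNReal.ofReal_pow hCR.le, ofReal_CR]
    have hHG : ENNReal.ofReal (HG Δ R s) = Gen.CC Δ ^ (s+1) +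
        2 * Gen.CC Δ ^ s * (1 - z)⁻¹ := by
      rw [hz, one_sub_z hΔ]
      unfold HG
      have e : CR Δ ^ s * (CR Δ + 4 * TR Δ R) = CR Δ ^ (s+1) + 2 * CR Δ ^ s * (2 * TR Δ R) := by
        ring
      rw [e, ENNReal.ofReal_add (by positivity) (by positivity),
        ENNReal.ofReal_pow hCR.le, ENNReal.ofReal_mul (by positivity),
        ENNReal.ofReal_mul (by positivity), ENNReal.ofReal_pow hCR.le, ofReal_CR]
      simp
    rw [hHG]
    rcases le_total n (s+1) with hn | hn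
    · calc ∑ l ∈ Finset.range n, f l ≤ ∑ l ∈ Finset.range n, Gen.CC Δ ^ l :=
            Finset.sum_le_sum fun l _ => hf l
        _ ≤ ∑ l ∈ Finset.range (s+1), Gen.CC Δ ^ l :=
            Finset.sum_le_sum_of_subset (Finset.range_subset_range.2 hn)
        _ ≤ Gen.CC Δ ^ (s+1) := geom_le hC _
        _ ≤ _ := le_self_add
    · obtain ⟨k, rfl⟩ := Nat.exists_eq_add_of_le hn
      rw [Finset.sum_range_add]
      refine add_le_add ?_ ?_
      · exact (Finset.sum_le_sum fun l _ => hf l).trans (geom_le hC _)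
      · calc ∑ j ∈ Finset.range k, f (s + 1 + j)
            ≤ ∑ j ∈ Finset.range k, 2 * Gen.CC Δ ^ s * z ^ j := by
              refine Finset.sum_le_sum fun j hj => ?_
              refine (hf3 (s+1+j) (by omega) (by have := Finset.mem_range.1 hj; omega)).trans ?_
              have e : s + 1 + j - 1 = s + j := by omega
              rw [e, pow_add, ← hLz]
              exact le_of_eq (by ring)
          _ ≤ ∑' j, 2 * Gen.CC Δ ^ s * z ^ j := ENNReal.sum_le_tsum _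
          _ = _ := by rw [ENNReal.tsum_mul_left, ENNReal.tsum_geometric]

lemma RP3 (hΔ : 0 < Δ) : (2 : ℝ≥0∞) * (3 * ENNReal.ofReal (RPR Δ R)) ≤ 2⁻¹ := by
  have h0 := RPR_nonneg (R := R) hΔ
  have e : (2 : ℝ≥0∞) * (3 * ENNReal.ofReal (RPR Δ R)) = ENNReal.ofReal (2 * (3 * RPR Δ R)) := by
    rw [ENNReal.ofReal_mul (by norm_num), ENNReal.ofReal_mul (by norm_num)]
    simp
  rw [e]
  refine (ENNReal.ofReal_le_ofReal (q := 2⁻¹) (by have := RPR_le' (R := R) hΔ; linarith)).trans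
    (le_of_eq ?_)
  rw [ENNReal.ofReal_inv_of_pos (by norm_num)]
  simp

end Pool.Agent.MEG
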