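import Pool.Agent.MEG.Bound
import Pool.Agent.MEC.Main

open MeasureTheory Set Filter
open scoped ENNReal

set_option linter.unusedSectionVars false

namespace Pool.Agent.MEG

open Pool.Agent.MEC

/-- the time scale -/
noncomputable def TR (Δ R : ℕ) : ℝ := 2 * Δ * (R + 1)

/-- the decay rate -/
noncomputable def zR (Δ R : ℕ) : ℝ := 1 - 1 / (2 * TR Δ R)

/-- the growth rate -/
noncomputable def tR (Δ R : ℕ) : ℝ := 1 + 1 / TR Δ R

/-- the bound for the girth -/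
def gb (Δ R : ℕ) : ℕ := 8 * Δ * (R + 1) * Nat.clog 2 (8 * Δ ^ 2 * (R + 1)) + 2

variable {Δ R : ℕ}

lemma two_le_TR (hΔ : 0 < Δ) : 2 ≤ TR Δ R := by
  unfold TR
  have h1 : (1 : ℝ) ≤ Δ := by exact_mod_cast hΔ
  have h2 : (0 : ℝ) ≤ R := by positivity
  nlinarith

lemma zR_pos (hΔ : 0 < Δ) : 0 < zR Δ R := by
  unfold zR
  have h := two_le_TR (R := R) hΔ
  have : 1 / (2 * TR Δ R) < 1 := by
    rw [div_lt_one (by linarith)]; linarith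
  linarith

lemma zR_lt_one (hΔ : 0 < Δ) : zR Δ R < 1 := by
  unfold zR
  have h := two_le_TR (R := R) hΔ
  have : 0 < 1 / (2 * TR Δ R) := by positivity
  linarith

lemma one_le_tR (hΔ : 0 < Δ) : 1 ≤ tR Δ R := by
  unfold tR
  have h := two_le_TR (R := R) hΔ
  have : 0 < 1 / TR Δ R := by positivity
  linarith

/-- a form of the inequality of Bernoulli -/
lemma bern_mul {x : ℝ} (h0 : 0 ≤ x) (h1 : x ≤ 1) (n : ℕ) : (1 + x) ^ n * (1 - n * x) ≤ 1 := by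
  have h2 : 1 - n * x ≤ (1 - x) ^ n := by
    have := one_add_mul_le_pow (a := -x) (by linarith) n
    have e : 1 + (n : ℝ) * -x = 1 - n * x := by ring
    rw [e] at this
    simpa [sub_eq_add_neg] using this
  calc (1 + x) ^ n * (1 - n * x) ≤ (1 + x) ^ n * (1 - x) ^ n :=
        mul_le_mul_of_nonneg_left h2 (by positivity)
    _ = (1 - x ^ 2) ^ n := by rw [← mul_pow]; congr 1; ring
    _ ≤ 1 := pow_le_one₀ (by nlinarith) (by nlinarith)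

lemma bern_mul' {x : ℝ} (h0 : 0 ≤ x) (h1 : x ≤ 1) (n : ℕ) : (1 - x) ^ n * (1 + n * x) ≤ 1 := by
  have h2 : 1 + n * x ≤ (1 + x) ^ n := one_add_mul_le_pow (by linarith) n
  have h3 : 0 ≤ 1 - x := by linarith
  calc (1 - x) ^ n * (1 + n * x) ≤ (1 - x) ^ n * (1 + x) ^ n :=
        mul_le_mul_of_nonneg_left h2 (by positivity)
    _ = (1 - x ^ 2) ^ n := by rw [← mul_pow]; congr 1; ring
    _ ≤ 1 := pow_le_one₀ (by nlinarith) (by nlinarith)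

lemma tR_pow (hΔ : 0 < Δ) : tR Δ R ^ (R + 1) ≤ 1 + (Δ : ℝ)⁻¹ := by
  have h := two_le_TR (R := R) hΔ
  have hx1 : 1 / TR Δ R ≤ 1 := by
    rw [div_le_one (by linarith)]; linarith
  have hb := bern_mul (x := 1 / TR Δ R) (by positivity) hx1 (R + 1)
  have hΔ1 : (1 : ℝ) ≤ Δ := by exact_mod_cast hΔ
  have e : ((R + 1 : ℕ) : ℝ) * (1 / TR Δ R) = 1 / (2 * Δ) := by
    unfold TR
    push_cast
    field_simp
  rw [e] at hb
  have h2 : 0 < 1 - 1 / (2 * (Δ : ℝ)) := by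
    have : 1 / (2 * (Δ : ℝ)) < 1 := by
      rw [div_lt_one (by linarith)]; linarith
    linarith
  have h3 : tR Δ R ^ (R + 1) ≤ 1 / (1 - 1 / (2 * (Δ : ℝ))) := by
    rw [le_div_iff₀ h2]
    exact hb
  refine h3.trans ?_
  rw [div_le_iff₀ h2]
  have h4 : (1 + (Δ : ℝ)⁻¹) * (1 - 1 / (2 * Δ)) = 1 + (Δ - 1) / (2 * Δ ^ 2) := by
    field_simp
    ring
  rw [h4]
  have : 0 ≤ ((Δ : ℝ) - 1) / (2 * Δ ^ 2) := div_nonneg (by linarith) (by positivity)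
  linarith

lemma zR_half (hΔ : 0 < Δ) : zR Δ R ^ (4 * Δ * (R + 1)) ≤ 1 / 2 := by
  have h := two_le_TR (R := R) hΔ
  have hx1 : 1 / (2 * TR Δ R) ≤ 1 := by
    rw [div_le_one (by linarith)]; linarith
  have hb := bern_mul' (x := 1 / (2 * TR Δ R)) (by positivity) hx1 (4 * Δ * (R + 1))
  have hΔ1 : (1 : ℝ) ≤ Δ := by exact_mod_cast hΔ
  have e : ((4 * Δ * (R + 1) : ℕ) : ℝ) * (1 / (2 * TR Δ R)) = 1 := by
    unfold TR
    push_cast
    field_simp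
    norm_num
  rw [e] at hb
  have : zR Δ R ^ (4 * Δ * (R + 1)) * 2 ≤ 1 := by
    unfold zR
    calc _ = (1 - 1 / (2 * TR Δ R)) ^ (4 * Δ * (R + 1)) * (1 + 1) := by norm_num
      _ ≤ 1 := hb
  linarith

lemma zR_half_pow (hΔ : 0 < Δ) (k : ℕ) : zR Δ R ^ (4 * Δ * (R + 1) * k) ≤ (1 / 2) ^ k := by
  rw [pow_mul]
  exact pow_le_pow_left₀ (pow_nonneg (zR_pos hΔ).le _) (zR_half hΔ) k

lemma zR_gb (hΔ : 0 < Δ) : 4 * (4 * TR Δ R * Δ ^ 2) * TR Δ R * zR Δ R ^ (gb Δ R - 2) ≤ 1 := by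
  set n := 8 * Δ ^ 2 * (R + 1) with hn
  have h1 : gb Δ R - 2 = 4 * Δ * (R + 1) * (2 * Nat.clog 2 n) := by
    unfold gb
    rw [Nat.add_sub_cancel, ← hn]
    ring
  rw [h1]
  have h2 := zR_half_pow (R := R) hΔ (2 * Nat.clog 2 n)
  have h3 : (n : ℝ) ≤ 2 ^ Nat.clog 2 n := by
    exact_mod_cast Nat.le_pow_clog (by norm_num) n
  have h4 : 4 * (4 * TR Δ R * Δ ^ 2) * TR Δ R = (n : ℝ) ^ 2 := by
    rw [hn]
    unfold TR
    push_cast
    ring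
  rw [h4]
  have h5 : (n : ℝ) ^ 2 ≤ (2 ^ Nat.clog 2 n) ^ 2 := by
    gcongr
  calc (n : ℝ) ^ 2 * zR Δ R ^ (4 * Δ * (R + 1) * (2 * Nat.clog 2 n))
      ≤ (2 ^ Nat.clog 2 n) ^ 2 * (1 / 2) ^ (2 * Nat.clog 2 n) := by
        apply mul_le_mul h5 h2 (pow_nonneg (zR_pos hΔ).le _) (by positivity)
    _ = 1 := by
        rw [← pow_mul, mul_comm (Nat.clog 2 n) 2, ← mul_pow]
        norm_num

/-- the error per step -/
noncomputable def RPR (Δ R : ℕ) : ℝ := Δ ^ 2 * zR Δ R ^ (gb Δ R - 2) * (2 * TR Δ R)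

lemma RPR_nonneg (hΔ : 0 < Δ) : 0 ≤ RPR Δ R := by
  unfold RPR
  have h1 := two_le_TR (R := R) hΔ
  have h2 := (zR_pos (R := R) hΔ).le
  have h3 : 0 ≤ zR Δ R ^ (gb Δ R - 2) := pow_nonneg h2 _
  have h4 : 0 ≤ 2 * TR Δ R := by linarith
  positivity

lemma RPR_le (hΔ : 0 < Δ) : 2 * RPR Δ R ≤ 1 / (4 * TR Δ R) := by
  have h1 := two_le_TR (R := R) hΔ
  rw [le_div_iff₀ (by linarith)]
  refine le_trans (le_of_eq ?_) (zR_gb (R := R) hΔ)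
  unfold RPR
  ring

lemma RPR_le' (hΔ : 0 < Δ) : 2 * (3 * RPR Δ R) ≤ 1 / 2 := by
  have h1 := two_le_TR (R := R) hΔ
  have h2 := RPR_le (R := R) hΔ
  have h3 : 1 / (4 * TR Δ R) ≤ 1 / 8 := by
    apply div_le_div_of_nonneg_left (by norm_num) (by norm_num) (by linarith)
  linarith

lemma rpR (hΔ : 0 < Δ) : 1 + 2 * RPR Δ R ≤ zR Δ R * tR Δ R := by
  have h1 := two_le_TR (R := R) hΔ
  have h2 := RPR_le (R := R) hΔ
  have h3 : zR Δ R * tR Δ R = 1 + (TR Δ R - 1) / (2 * TR Δ R ^ 2) := by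
    unfold zR tR
    field_simp
    ring
  rw [h3]
  have h4 : 1 / (4 * TR Δ R) ≤ (TR Δ R - 1) / (2 * TR Δ R ^ 2) := by
    rw [div_le_div_iff₀ (by linarith) (by positivity)]
    nlinarith
  linarith

/-- the first scale -/
noncomputable def LamR (Δ R s : ℕ) : ℝ := (CR Δ / zR Δ R) ^ s

/-- the thresholds -/
noncomputable def HG (Δ R s : ℕ) : ℝ := CR Δ ^ s * (CR Δ + 4 * TR Δ R)

/-- the time of the walks -/
def N0 (Δ R s : ℕ) : ℕ := 3 + s + 4 * Δ * (R + 1) * (2 * Δ + 3) * s + 4 * Δ * (R + 1) * 3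

lemma HG_pos (hΔ : 0 < Δ) (s : ℕ) : 0 < HG Δ R s := by
  unfold HG
  have h1 := two_le_TR (R := R) hΔ
  have := CR_pos Δ
  positivity

lemma HG_succ (s : ℕ) : HG Δ R (s+1) = CR Δ * HG Δ R s := by
  unfold HG; rw [pow_succ]; ring

lemma one_le_CR : 1 ≤ CR Δ := by
  unfold CR
  have : (0 : ℝ) ≤ Δ := by positivity
  linarith

lemma LamR_pos (hΔ : 0 < Δ) (s : ℕ) : 0 < LamR Δ R s := by
  unfold LamR
  have := CR_pos Δ
  have := zR_pos (R := R) hΔ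
  positivity

lemma LamR_mul (hΔ : 0 < Δ) (s : ℕ) : LamR Δ R s * zR Δ R ^ s = CR Δ ^ s := by
  unfold LamR
  have := zR_pos (R := R) hΔ
  rw [← mul_pow, div_mul_cancel₀ _ this.ne']

lemma n0R (hΔ : 0 < Δ) (s : ℕ) :
    8 * (LamR Δ R s * zR Δ R ^ (N0 Δ R s - 1)) ≤ 1 := by
  have hz := zR_pos (R := R) hΔ
  have hz1 := (zR_lt_one (R := R) hΔ).le
  have hC := CR_pos Δ
  have e : N0 Δ R s - 1 = s + 4 * Δ * (R + 1) * ((2 * Δ + 3) * s) +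
      (4 * Δ * (R + 1) * 3 + 2) := by
    unfold N0
    rw [mul_assoc (4 * Δ * (R + 1)) (2 * Δ + 3) s]
    omega
  rw [e, pow_add, pow_add, pow_add]
  have h1 := zR_half_pow (R := R) hΔ ((2 * Δ + 3) * s)
  have h2 := zR_half_pow (R := R) hΔ 3
  have h3 : zR Δ R ^ 2 ≤ 1 := pow_le_one₀ hz.le hz1
  have h4 : CR Δ ≤ 2 ^ (2 * Δ + 3) := by
    have : ((2 * Δ + 3 : ℕ) : ℝ) ≤ ((2 ^ (2 * Δ + 3) : ℕ) : ℝ) := by
      exact_mod_cast (Nat.lt_two_pow_self).le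
    push_cast at this
    unfold CR
    linarith
  have h5 : CR Δ ^ s * (1 / 2) ^ ((2 * Δ + 3) * s) ≤ 1 := by
    rw [pow_mul, ← mul_pow]
    refine pow_le_one₀ (by positivity) ?_
    rw [one_div, inv_pow]
    exact (mul_inv_le_iff₀ (by positivity)).2 (by simpa using h4)
  have hp : ∀ n, 0 ≤ zR Δ R ^ n := fun n => pow_nonneg hz.le n
  calc 8 * (LamR Δ R s * (zR Δ R ^ s * zR Δ R ^ (4 * Δ * (R + 1) * ((2 * Δ + 3) * s)) *
        (zR Δ R ^ (4 * Δ * (R + 1) * 3) * zR Δ R ^ 2)))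
      = 8 * ((LamR Δ R s * zR Δ R ^ s) * zR Δ R ^ (4 * Δ * (R + 1) * ((2 * Δ + 3) * s)) *
        (zR Δ R ^ (4 * Δ * (R + 1) * 3) * zR Δ R ^ 2)) := by ring
    _ ≤ 8 * ((CR Δ ^ s * (1 / 2) ^ ((2 * Δ + 3) * s)) * ((1 / 2) ^ 3 * 1)) := by
        rw [LamR_mul hΔ]
        have h6 : zR Δ R ^ (4 * Δ * (R + 1) * 3) * zR Δ R ^ 2 ≤ (1 / 2) ^ 3 * 1 :=
          mul_le_mul h2 h3 (hp _) (by positivity)
        have h7 : CR Δ ^ s * zR Δ R ^ (4 * Δ * (R + 1) * ((2 * Δ + 3) * s)) ≤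
            CR Δ ^ s * (1 / 2) ^ ((2 * Δ + 3) * s) :=
          mul_le_mul_of_nonneg_left h1 (by positivity)
        have h8 := mul_le_mul h7 h6 (mul_nonneg (hp _) (hp _)) (by positivity)
        linarith
    _ ≤ 8 * (1 * ((1 / 2) ^ 3 * 1)) := by gcongr
    _ = 1 := by norm_num

end Pool.Agent.MEG
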