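import Pool.Agent.MEG.Impr

open MeasureTheory Set Filter
open scoped ENNReal

set_option linter.unusedSectionVars false

namespace Pool.Agent.MEG

open Pool.Agent.MEC

variable {V : Type*} [MeasurableSpace V] [StandardBorelSpace V]
variable {G : SimpleGraph V} {Δ : ℕ}

/-! ### Discounted visits -/

section pot

variable (c : PCol G Δ) (m : V → Fin Δ) (z : ℝ≥0∞)

/-- discounted weight of the visits of the static walk -/
noncomputable def pot (N : ℕ) (σ : State V Δ) (v : V) : ℝ≥0∞ :=
  ∑ k ∈ Finset.range (N+1), z ^ k * (TT c m)^[k] (dv v) σ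

lemma one_le_pot (N : ℕ) {σ : State V Δ} {v : V} (h : σ.1 = v) : 1 ≤ pot c m z N σ v := by
  unfold pot
  refine le_trans ?_ (Finset.single_le_sum (f := fun k => z ^ k * (TT c m)^[k] (dv v) σ)
    (fun _ _ => bot_le) (Finset.mem_range.2 (Nat.succ_pos N)))
  simp [dv, h]

lemma next_pot (N : ℕ) (σ : State V Δ) (v : V) :
    z * ∑ k, qq c m σ k * pot c m z N (nxt c σ k) v =
      ∑ k ∈ Finset.range (N+1), z ^ (k+1) * (TT c m)^[k+1] (dv v) σ := by
  unfold pot
  simp only [Finset.mul_sum]
  rw [Finset.sum_comm]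
  refine Finset.sum_congr rfl fun l _ => ?_
  rw [Function.iterate_succ_apply']
  unfold TT
  rw [Finset.mul_sum]
  refine Finset.sum_congr rfl fun k _ => ?_
  ring

lemma next_pot_le (N : ℕ) (σ : State V Δ) (v : V) :
    z * ∑ k, qq c m σ k * pot c m z N (nxt c σ k) v ≤ pot c m z (N+1) σ v := by
  rw [next_pot]
  unfold pot
  rw [Finset.sum_range_succ' _ (N+1)]
  exact le_self_add

lemma tail_le {F : ℕ → ℝ≥0∞} {D : ℝ≥0∞} (r0 : ℕ) (h0 : ∀ k < r0, F k = 0) (h : ∀ k, F k ≤ D)
    (n : ℕ) : ∑ k ∈ Finset.range n, z ^ k * F k ≤ D * z ^ r0 * (1 - z)⁻¹ := by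
  calc ∑ k ∈ Finset.range n, z ^ k * F k ≤ ∑' k, z ^ k * F k := ENNReal.sum_le_tsum _
    _ = ∑ k ∈ Finset.range r0, z ^ k * F k + ∑' k, z ^ (k + r0) * F (k + r0) :=
        (Summable.sum_add_tsum_nat_add' ENNReal.summable).symm
    _ = ∑' k, z ^ (k + r0) * F (k + r0) := by
        rw [Finset.sum_eq_zero, zero_add]
        intro k hk
        rw [h0 k (Finset.mem_range.1 hk), mul_zero]
    _ ≤ ∑' k, (D * z ^ r0) * z ^ k := by
        refine ENNReal.tsum_le_tsum fun k => ?_
        calc z ^ (k + r0) * F (k + r0) ≤ z ^ (k + r0) * D := by gcongr; exact h _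
          _ = (D * z ^ r0) * z ^ k := by rw [pow_add]; ring
    _ = D * z ^ r0 * (1 - z)⁻¹ := by rw [ENNReal.tsum_mul_left, ENNReal.tsum_geometric]

end pot

/-- total future density mass -/
noncomputable def Uw (ν : Measure V) (c : PCol G Δ) (m : V → Fin Δ) (N : ℕ) (σ : State V Δ) :
    ℝ≥0∞ := ∑ k ∈ Finset.range (N+1), (TD ν c m)^[k] 1 σ

lemma one_le_Uw (ν : Measure V) (c : PCol G Δ) (m : V → Fin Δ) (N : ℕ) (σ : State V Δ) :
    1 ≤ Uw ν c m N σ := by
  unfold Uw
  refine le_trans ?_ (Finset.single_le_sum (f := fun k => (TD ν c m)^[k] 1 σ)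
    (fun _ _ => bot_le) (Finset.mem_range.2 (Nat.succ_pos N)))
  simp

lemma next_Uw_le (ν : Measure V) (c : PCol G Δ) (m : V → Fin Δ) (N : ℕ) (σ : State V Δ) :
    ∑ k, qq c m σ k * (dS ν c k σ.1 * Uw ν c m N (nxt c σ k)) ≤ Uw ν c m (N+1) σ := by
  have : ∑ k, qq c m σ k * (dS ν c k σ.1 * Uw ν c m N (nxt c σ k)) =
      ∑ k ∈ Finset.range (N+1), (TD ν c m)^[k+1] 1 σ := by
    unfold Uw
    simp only [Finset.mul_sum]
    rw [Finset.sum_comm]
    refine Finset.sum_congr rfl fun l _ => ?_
    rw [Function.iterate_succ_apply']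
    rfl
  rw [this]
  unfold Uw
  rw [Finset.sum_range_succ' _ (N+1)]
  exact le_self_add

/-- The parameters. -/
structure Par (Δ R r N0 : ℕ) (z t B Lam RP H C : ℝ≥0∞) : Prop where
  z1 : z ≤ 1
  t1 : 1 ≤ t
  tB : t ^ R ≤ B
  tR : t ^ (R+1) ≤ 1 + (Δ : ℝ≥0∞)⁻¹
  rp : 1 + B * RP ≤ z * t
  rp' : (Δ : ℝ≥0∞) ^ 2 * z ^ (r - 2) * (1 - z)⁻¹ ≤ RP
  Bt : B ≠ ⊤
  Rt : RP ≠ ⊤
  Lt : Lam ≠ ⊤
  N3 : 3 ≤ N0
  n0 : B * Lam * z ^ (N0 - 1) + B * Lam * z ^ (N0 - 1) ≤ 2⁻¹
  light : ∀ (f : ℕ → ℝ≥0∞) (n : ℕ), (∀ l, f l ≤ C ^ l) →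
    (∀ l, 3 ≤ l → l < n → f l ≤ B * Lam * z ^ (l - 1)) → ∑ l ∈ Finset.range n, f l ≤ H

section main

variable {g : Gen G Δ} {c : PCol G Δ} {m : V → Fin Δ} {ν : Measure V} {i : ℕ} {x : V}
variable {R r N0 : ℕ} {z t B Lam RP H C : ℝ≥0∞}

/-- the state of the walk after `n` steps -/
noncomputable def stt (g : Gen G Δ) (c : PCol G Δ) (i : ℕ) (K : ℕ → Fin Δ) (x : V) (n : ℕ) :
    State V Δ := (word g c i K (n+1) x, K (n-1), K n)

lemma word_upd (K : ℕ → Fin Δ) (n : ℕ) (k : Fin Δ) {l : ℕ} (hl : l ≤ n + 1) :
    word g c i (Function.update K (n+1) k) l = word g c i K l :=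
  word_congr g c i l fun j _ h2 => by
    rw [Function.update_of_ne (by omega)]

lemma word_upd_succ (K : ℕ → Fin Δ) (n : ℕ) (k : Fin Δ) :
    word g c i (Function.update K (n+1) k) (n+2) x = c.S k (word g c i K (n+1) x) := by
  rw [word_succ, word_upd K n k le_rfl, Function.update_self]

lemma stt_upd (K : ℕ → Fin Δ) {n : ℕ} (_hn : 1 ≤ n) (k : Fin Δ) :
    stt g c i (Function.update K (n+1) k) x (n+1) = nxt c (stt g c i K x n) k := by
  unfold stt nxt
  rw [word_upd_succ]
  simp only [Nat.add_sub_cancel, Function.update_self]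
  rw [Function.update_of_ne (by omega)]

/-- colours and vertices at the present state -/
lemma back_eq {K : ℕ → Fin Δ} {n : ℕ} (hn : 1 ≤ n) :
    c.S (K n) (word g c i K (n+1) x) = word g c i K n x := by
  obtain ⟨l, rfl⟩ : ∃ l, n = l + 1 := ⟨n - 1, by omega⟩
  exact word_pred l x

lemma back_eq2 {K : ℕ → Fin Δ} {n : ℕ} (hn : 2 ≤ n) :
    c.S (K (n-1)) (word g c i K n x) = word g c i K (n-1) x := by
  obtain ⟨l, rfl⟩ : ∃ l, n = l + 2 := ⟨n - 2, by omega⟩
  exact word_pred l x

/-- Weight of staying. -/
lemma qq_stay {K : ℕ → Fin Δ} {n : ℕ} (hn : 2 ≤ n) (hv : Valid g c i K n x)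
    (hne : c.S (K (n-1)) (word g c i K (n+1) x) ≠ word g c i K (n+1) x) :
    qq c m (stt g c i K x n) (K (n-1)) = 1 := by
  have h1 := back_eq (g := g) (c := c) (i := i) (x := x) (K := K) (n := n) (by omega)
  have h2 := back_eq2 (g := g) (c := c) (i := i) (x := x) (K := K) hn
  have h3 : word g c i K n x ≠ word g c i K (n-1) x := by
    have := hv.word_ne (l := n-1) (by omega)
    have e : n - 1 + 1 = n := by omega
    rw [e] at this
    exact this
  have h4 : K (n-1) ≠ K n := by
    intro he
    have h5 := hv.nb (n-1) (by omega)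
    have e : n - 1 + 2 = n + 1 := by omega
    rw [e] at h5
    apply h5
    rw [← h2, he, ← h1, c.invol]
  unfold qq stt
  simp only
  rw [if_pos ⟨hne, h4⟩, if_pos]
  refine ⟨rfl, ?_⟩
  rw [h1, h2]
  exact h3.symm

/-- Weight of switching. -/
lemma qq_switch {K : ℕ → Fin Δ} {n : ℕ} (hn : 2 ≤ n) (hv : Valid g c i K n x)
    (hmis : c.S (m (word g c i K n x)) (word g c i K n x) = word g c i K n x)
    (hne : c.S (m (word g c i K n x)) (word g c i K (n+1) x) ≠ word g c i K (n+1) x) :
    qq c m (stt g c i K x n) (m (word g c i K n x)) = (Δ : ℝ≥0∞)⁻¹ ∧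
      m (word g c i K n x) ≠ K (n-1) := by
  have h1 := back_eq (g := g) (c := c) (i := i) (x := x) (K := K) (n := n) (by omega)
  have h2 := back_eq2 (g := g) (c := c) (i := i) (x := x) (K := K) hn
  have h3 : word g c i K n x ≠ word g c i K (n-1) x := by
    have := hv.word_ne (l := n-1) (by omega)
    have e : n - 1 + 1 = n := by omega
    rw [e] at this
    exact this
  have h4 : m (word g c i K n x) ≠ K n := by
    intro he
    rw [he] at hmis
    have h5 : c.S (K n) (word g c i K n x) = word g c i K (n+1) x := by rw [← h1, c.invol]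
    rw [h5] at hmis
    exact hv.word_ne le_rfl hmis
  have h6 : m (word g c i K n x) ≠ K (n-1) := by
    intro he
    rw [he, h2] at hmis
    exact h3 hmis.symm
  refine ⟨?_, h6⟩
  unfold qq stt
  simp only
  rw [h1, if_pos ⟨hne, h4⟩, if_neg, if_pos ⟨rfl, hmis⟩]
  exact fun h => h6 h.1

/-- What a positive weight means. -/
lemma of_qq_ne_zero {K : ℕ → Fin Δ} {n : ℕ} (hn : 2 ≤ n) {k : Fin Δ}
    (h : qq c m (stt g c i K x n) k ≠ 0) : Free g c i K n k x ∧
      c.S k (word g c i K (n+1) x) ≠ word g c i K (n+1) x := by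
  have h1 := back_eq (g := g) (c := c) (i := i) (x := x) (K := K) (n := n) (by omega)
  unfold qq stt at h
  simp only at h
  rw [h1] at h
  split_ifs at h with h2 h3 h4
  · exact ⟨Or.inr ⟨hn, h3.1⟩, h2.1⟩
  · exact ⟨Or.inl h4.2, h2.1⟩
  · exact absurd rfl h
  · exact absurd rfl h

/-- The main claim: the walk survives. -/
theorem survive (hP : Par Δ R r N0 z t B Lam RP H C) (hG : NBg G r)
    (hR : Sparse G Δ R) (hgood : Good g c ν C H x)
    (hm : ∀ x, (∃ k, c.S k x = x) → c.S (m x) x = x) (N : ℕ) :
    ∀ (n : ℕ) (K : ℕ → Fin Δ) (j : ℕ), 2 ≤ n → Valid g c i K n x → Dst g c i K n x →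
      (∀ n', 2 ≤ n' → n' < n → dens ν (word g c i K (n'+1)) x < B * Lam * z ^ n') →
      j ≤ R → j ≤ n →
      (∀ l < j, ∀ k, c.S k (word g c i K (n-1-l) x) ≠ word g c i K (n-1-l) x) →
      N0 ≤ n + N →
      t ^ j * (Lam * z ^ n) ≤
        dens ν (word g c i K (n+1)) x * Uw ν c m N (stt g c i K x n) +
        B * (Lam * z ^ n) * ∑ l ∈ Finset.range (n+1),
          pot c m z N (stt g c i K x n) (word g c i K l x) := by
  classical
  have htB : ∀ j ≤ R, t ^ j ≤ B := fun j hj => (pow_le_pow_right₀ hP.t1 hj).trans hP.tB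
  -- the stopped case
  have stopped : ∀ (N n : ℕ) (K : ℕ → Fin Δ) (j : ℕ), j ≤ R →
      B * Lam * z ^ n ≤ dens ν (word g c i K (n+1)) x →
      t ^ j * (Lam * z ^ n) ≤
        dens ν (word g c i K (n+1)) x * Uw ν c m N (stt g c i K x n) +
        B * (Lam * z ^ n) * ∑ l ∈ Finset.range (n+1),
          pot c m z N (stt g c i K x n) (word g c i K l x) := by
    intro N n K j hj hst
    refine le_trans ?_ le_self_add
    calc t ^ j * (Lam * z ^ n) ≤ B * (Lam * z ^ n) := by gcongr; exact htB j hj
      _ = B * Lam * z ^ n := by ring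
      _ ≤ dens ν (word g c i K (n+1)) x * 1 := by rw [mul_one]; exact hst
      _ ≤ _ := by gcongr; exact one_le_Uw ν c m N _
  -- lightness of unstopped walks
  have light : ∀ (n : ℕ) (K : ℕ → Fin Δ),
      (∀ n', 2 ≤ n' → n' < n → dens ν (word g c i K (n'+1)) x < B * Lam * z ^ n') →
      dens ν (word g c i K (n+1)) x < B * Lam * z ^ n →
      sumD g c i K ν (n+2) x ≤ H := by
    intro n K h1 h2
    unfold sumD
    refine hP.light (fun l => dens ν (word g c i K l) x) (n+2) (fun l => hgood.le i l K) ?_
    intro l hl3 hl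
    rcases Nat.lt_or_ge l (n+1) with h | h
    · have := h1 (l-1) (by omega) (by omega)
      have e : l - 1 + 1 = l := by omega
      rw [e] at this
      exact this.le
    · have e : l = n + 1 := by omega
      subst e
      exact h2.le
  induction N with
  | zero =>
    intro n K j hn hv hd hun hj hjn hA hN
    by_cases hst : B * Lam * z ^ n ≤ dens ν (word g c i K (n+1)) x
    · exact stopped 0 n K j hj hst
    exfalso
    rw [not_le] at hst
    have h1 := (hgood.ni i n K hv hd (light n K hun hst)).2
    have hN3 := hP.N3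
    have h2 := hun (n-1) (by omega) (by omega)
    have e : n - 1 + 1 = n := by omega
    rw [e] at h2
    have h3 : B * Lam * z ^ n ≤ B * Lam * z ^ (N0-1) :=
      mul_le_mul_right (pow_le_pow_of_le_one bot_le hP.z1 (by omega)) _
    have h4 : B * Lam * z ^ (n-1) ≤ B * Lam * z ^ (N0-1) :=
      mul_le_mul_right (pow_le_pow_of_le_one bot_le hP.z1 (by omega)) _
    have h5 : dens ν (word g c i K n) x + dens ν (word g c i K (n+1)) x ≤ 2⁻¹ :=
      (add_le_add (h2.le.trans h4) (hst.le.trans h3)).trans hP.n0
    exact absurd h1 (not_lt.2 h5)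
  | succ N ih =>
    intro n K j hn hv hd hun hj hjn hA hN
    by_cases hst : B * Lam * z ^ n ≤ dens ν (word g c i K (n+1)) x
    · exact stopped (N+1) n K j hj hst
    rw [not_le] at hst
    have hs := light n K hun hst
    obtain ⟨hni, -⟩ := hgood.ni i n K hv hd hs
    set σ := stt g c i K x n with hσ
    set p := word g c i K (n+1) x with hp
    set y := word g c i K n x with hy
    have hstayne : c.S (K (n-1)) p ≠ p := hni _ (Or.inr ⟨hn, rfl⟩)
    have hqs : qq c m σ (K (n-1)) = 1 := qq_stay hn hv hstayne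
    -- the new value of `j`
    obtain ⟨j', hj'R, hj'n, hmass, hA'⟩ : ∃ j', j' ≤ R ∧ j' ≤ n + 1 ∧
        t ^ (j+1) ≤ (∑ k, qq c m σ k) * t ^ j' ∧
        (∀ l < j', ∀ k, c.S k (word g c i K (n-l) x) ≠ word g c i K (n-l) x) := by
      by_cases hmiss : ∃ k, c.S k y = y
      · refine ⟨0, Nat.zero_le _, Nat.zero_le _, ?_, fun l hl => absurd hl (Nat.not_lt_zero l)⟩
        have hmy := hm y hmiss
        obtain ⟨h1, h2⟩ := qq_switch hn hv hmy (hni _ (Or.inl hmy))
        rw [pow_zero, mul_one]
        calc t ^ (j+1) ≤ t ^ (R+1) := pow_le_pow_right₀ hP.t1 (by omega)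
          _ ≤ 1 + (Δ : ℝ≥0∞)⁻¹ := hP.tR
          _ = ∑ k ∈ ({K (n-1), m y} : Finset (Fin Δ)), qq c m σ k := by
              rw [Finset.sum_pair h2.symm, hqs, ← h1]
          _ ≤ ∑ k, qq c m σ k := Finset.sum_le_sum_of_subset (Finset.subset_univ _)
      · have hjR : j + 1 ≤ R := by
          by_contra hcon
          have hjeq : j = R := by omega
          obtain ⟨l, hl, hdeg⟩ := hR (fun l => word g c i K (n-R+l) x)
            (fun l hl => hv.adj (l := n-R+l) (by omega))
            (fun l hl => hv.nb (n-R+l) (by omega))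
          obtain ⟨k, hk⟩ := exists_missing_of_deg c hdeg
          rcases Nat.lt_or_ge l R with h | h
          · have := hA (R-1-l) (by omega) k
            have e : n - 1 - (R-1-l) = n - R + l := by omega
            rw [e] at this
            exact this hk
          · have e : n - R + l = n := by omega
            simp only [e] at hk
            exact hmiss ⟨k, hk⟩
        refine ⟨j+1, hjR, by omega, ?_, ?_⟩
        · have h1 : (1 : ℝ≥0∞) ≤ ∑ k, qq c m σ k := by
            rw [← hqs]
            exact Finset.single_le_sum (f := fun k => qq c m σ k) (fun _ _ => bot_le)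
              (Finset.mem_univ _)
          calc t ^ (j+1) = 1 * t ^ (j+1) := (one_mul _).symm
            _ ≤ _ := by gcongr
        · intro l hl k
          rcases Nat.eq_zero_or_pos l with h | h
          · subst h
            exact fun he => hmiss ⟨k, he⟩
          · have := hA (l-1) (by omega) k
            have e : n - 1 - (l-1) = n - l := by omega
            rw [e] at this
            exact this
    -- the induction step for every colour
    have step : ∀ k, qq c m σ k * (t ^ j' * (Lam * z ^ (n+1))) ≤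
        dens ν (word g c i K (n+1)) x * (qq c m σ k * (dS ν c k p * Uw ν c m N (nxt c σ k))) +
        B * (Lam * z ^ (n+1)) * ∑ l ∈ Finset.range (n+2),
          (qq c m σ k * pot c m z N (nxt c σ k) (word g c i K l x)) := by
      intro k
      by_cases hq : qq c m σ k = 0
      · rw [hq, zero_mul]; exact bot_le
      obtain ⟨hfree, hne⟩ := of_qq_ne_zero hn hq
      have hgoal : t ^ j' * (Lam * z ^ (n+1)) ≤
          dens ν (word g c i K (n+1)) x * (dS ν c k p * Uw ν c m N (nxt c σ k)) +
          B * (Lam * z ^ (n+1)) * ∑ l ∈ Finset.range (n+2),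
            pot c m z N (nxt c σ k) (word g c i K l x) := by
        by_cases hcol : ∃ l, l ≤ n + 1 ∧ c.S k p = word g c i K l x
        · obtain ⟨l, hl, hle⟩ := hcol
          refine le_trans ?_ le_add_self
          calc t ^ j' * (Lam * z ^ (n+1)) ≤ B * (Lam * z ^ (n+1)) * 1 := by
                rw [mul_one]; gcongr; exact htB j' hj'R
            _ ≤ _ := by
                gcongr
                refine (one_le_pot c m z N (σ := nxt c σ k) hle).trans
                  (Finset.single_le_sum
                    (f := fun l => pot c m z N (nxt c σ k) (word g c i K l x))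
                    (fun _ _ => bot_le) (Finset.mem_range.2 (by omega)))
        · push Not at hcol
          set K' := Function.update K (n+1) k with hK'
          have hw : ∀ l, l ≤ n + 1 → word g c i K' l = word g c i K l := fun l hl =>
            word_upd K n k hl
          have hw2 : word g c i K' (n+2) x = c.S k p := word_upd_succ K n k
          have hKK : ∀ j, 1 ≤ j → j ≤ n → K j = K' j := fun j _ hj => by
            rw [hK', Function.update_of_ne (by omega)]
          have hKn : K' (n+1) = k := by rw [hK', Function.update_self]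
          have hv' : Valid g c i K' (n+1) x := by
            refine ⟨(Valid_congr g c i n hKK x).1 hv, ?_, ?_⟩
            · rw [hKn]
              exact (Free_congr g c i n (fun j h1 h2 => hKK j h1 h2.le) k x).1 hfree
            · rw [hKn, hw (n+1) le_rfl]
              exact hne
          have hd' : Dst g c i K' (n+1) x := by
            have key : ∀ l, l ≤ n + 1 → word g c i K' (n+2) x ≠ word g c i K' l x := by
              intro l hl
              rw [hw2, hw l hl]
              exact hcol l hl
            intro l l' hl hl' hne'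
            rcases Nat.lt_or_ge l (n+2) with h | h
            · rcases Nat.lt_or_ge l' (n+2) with h' | h'
              · rw [hw l (by omega), hw l' (by omega)]
                exact hd l l' (by omega) (by omega) hne'
              · have e : l' = n + 2 := by omega
                subst e
                exact (key l (by omega)).symm
            · have e : l = n + 2 := by omega
              subst e
              exact key l' (by omega)
          have hun' : ∀ n', 2 ≤ n' → n' < n + 1 →
              dens ν (word g c i K' (n'+1)) x < B * Lam * z ^ n' := by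
            intro n' h1 h2
            rw [hw (n'+1) (by omega)]
            rcases Nat.lt_or_ge n' n with h | h
            · exact hun n' h1 h
            · have e : n' = n := by omega
              subst e
              exact hst
          have := ih (n+1) K' j' (by omega) hv' hd' hun' hj'R hj'n (by
            intro l hl k'
            have e : n + 1 - 1 - l = n - l := by omega
            rw [e, hw (n-l) (by omega)]
            exact hA' l hl k') (by omega)
          rw [stt_upd K (by omega) k, hgood.co i n K', hKn, hw (n+1) le_rfl, mul_assoc] at this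
          refine this.trans (le_of_eq ?_)
          congr 2
          refine Finset.sum_congr rfl fun l hl => ?_
          rw [Finset.mem_range] at hl
          rw [hw l (by omega)]
      calc qq c m σ k * (t ^ j' * (Lam * z ^ (n+1))) ≤ qq c m σ k *
            (dens ν (word g c i K (n+1)) x * (dS ν c k p * Uw ν c m N (nxt c σ k)) +
            B * (Lam * z ^ (n+1)) * ∑ l ∈ Finset.range (n+2),
              pot c m z N (nxt c σ k) (word g c i K l x)) := by gcongr
        _ = _ := by
            rw [mul_add, ← Finset.mul_sum]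
            ring
    -- summing up
    have hret : z * ∑ k, qq c m σ k * pot c m z N (nxt c σ k) p ≤ RP := by
      rw [next_pot]
      have h0 : ∀ k < r, (TT c m)^[k+1] (dv p) σ = 0 := by
        intro k hk
        have := iter_eq_zero c m hG (n := k+1) (N := n+1) (fun l => word g c i K l x) σ
          (fun l hl => hv.adj (by omega)) (fun l hl => hv.nb l hl) rfl (fun l hl => by
            have : l = n := by omega
            subst this
            exact back_eq (by omega)) (j := n+1) le_rfl (by omega) (by omega)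
        exact this
      calc ∑ k ∈ Finset.range (N+1), z ^ (k+1) * (TT c m)^[k+1] (dv p) σ
          ≤ ∑ k ∈ Finset.range (N+1), z ^ k * (TT c m)^[k+1] (dv p) σ := by
            refine Finset.sum_le_sum fun k _ => mul_le_mul' ?_ le_rfl
            exact pow_le_pow_of_le_one bot_le hP.z1 (Nat.le_succ k)
        _ ≤ (Δ : ℝ≥0∞) ^ 2 * z ^ r * (1 - z)⁻¹ :=
            tail_le z r h0 (fun k => iter_dv_le c m (k+1) p σ) _
        _ ≤ (Δ : ℝ≥0∞) ^ 2 * z ^ (r-2) * (1 - z)⁻¹ := by
            refine mul_le_mul' (mul_le_mul' le_rfl ?_) le_rfl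
            exact pow_le_pow_of_le_one bot_le hP.z1 (Nat.sub_le _ _)
        _ ≤ RP := hP.rp'
    have hsum : t ^ (j+1) * (Lam * z ^ (n+1)) ≤
        dens ν (word g c i K (n+1)) x * Uw ν c m (N+1) σ +
        (B * (Lam * z ^ n) * ∑ l ∈ Finset.range (n+1),
          pot c m z (N+1) σ (word g c i K l x) + B * (Lam * z ^ n) * RP) := by
      calc t ^ (j+1) * (Lam * z ^ (n+1)) ≤
            ((∑ k, qq c m σ k) * t ^ j') * (Lam * z ^ (n+1)) := by gcongr
        _ = ∑ k, qq c m σ k * (t ^ j' * (Lam * z ^ (n+1))) := by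
            rw [← Finset.sum_mul, mul_assoc]
        _ ≤ ∑ k, (dens ν (word g c i K (n+1)) x *
              (qq c m σ k * (dS ν c k p * Uw ν c m N (nxt c σ k))) +
            B * (Lam * z ^ (n+1)) * ∑ l ∈ Finset.range (n+2),
              (qq c m σ k * pot c m z N (nxt c σ k) (word g c i K l x))) :=
            Finset.sum_le_sum fun k _ => step k
        _ = dens ν (word g c i K (n+1)) x *
              (∑ k, qq c m σ k * (dS ν c k p * Uw ν c m N (nxt c σ k))) +
            B * (Lam * z ^ n) * ∑ l ∈ Finset.range (n+2),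
              (z * ∑ k, qq c m σ k * pot c m z N (nxt c σ k) (word g c i K l x)) := by
            rw [Finset.sum_add_distrib, ← Finset.mul_sum, ← Finset.mul_sum, Finset.sum_comm,
              ← Finset.mul_sum, pow_succ]
            ring
        _ ≤ dens ν (word g c i K (n+1)) x * Uw ν c m (N+1) σ +
            B * (Lam * z ^ n) * (∑ l ∈ Finset.range (n+1),
              pot c m z (N+1) σ (word g c i K l x) + RP) := by
            rw [Finset.sum_range_succ _ (n+1)]
            gcongr
            · exact next_Uw_le ν c m N σ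
            · exact next_pot_le c m z N σ _
        _ = _ := by ring
    have hfin : B * (Lam * z ^ n) * RP ≠ ⊤ := by
      refine ENNReal.mul_ne_top (ENNReal.mul_ne_top hP.Bt (ENNReal.mul_ne_top hP.Lt
        (ENNReal.pow_ne_top (ne_top_of_le_ne_top ENNReal.one_ne_top hP.z1)))) hP.Rt
    have hlow : t ^ j * (Lam * z ^ n) + B * (Lam * z ^ n) * RP ≤
        t ^ (j+1) * (Lam * z ^ (n+1)) := by
      have h1 : (1 : ℝ≥0∞) ≤ t ^ j := one_le_pow₀ hP.t1
      calc t ^ j * (Lam * z ^ n) + B * (Lam * z ^ n) * RP
          ≤ t ^ j * (Lam * z ^ n) + t ^ j * (B * (Lam * z ^ n) * RP) :=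
            add_le_add le_rfl ((one_mul _).symm.le.trans (mul_le_mul' h1 le_rfl))
        _ = (t ^ j * (Lam * z ^ n)) * (1 + B * RP) := by ring
        _ ≤ (t ^ j * (Lam * z ^ n)) * (z * t) := by gcongr; exact hP.rp
        _ = _ := by rw [pow_succ, pow_succ]; ring
    have hall := hlow.trans hsum
    rw [← add_assoc] at hall
    exact (ENNReal.add_le_add_iff_right hfin).1 hall

end main

end Pool.Agent.MEG
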